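import Pool.Agent.J6H27.EF.Core

/-!
# Substitution
-/

set_option autoImplicit false

namespace Pool.Agent.J6H27.EF

open Finset Pool.Agent.Helper600R2.Cnt

variable {p : ℕ} {α β γ : Type}

theorem Uses.mono {P Q : α → Prop} (h : ∀ x, P x → Q x) (φ : Fm p α) (hφ : Uses P φ) :
    Uses Q φ := by
  induction φ with
  | var x => exact h x hφ
  | neg φ ih => exact ih hφ
  | or t φs ih => exact fun j => ih j (hφ j)
  | md i t φs ih => exact fun j => ih j (hφ j)

theorem bind_bind (f : α → Fm p β) (g : β → Fm p γ) (φ : Fm p α) :
    bind g (bind f φ) = bind (fun x => bind g (f x)) φ := by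
  induction φ with
  | var x => rfl
  | neg φ ih => simp only [bind, ih]
  | or t φs ih => simp only [bind, ih]
  | md i t φs ih => simp only [bind, ih]

theorem bind_var (φ : Fm p α) : bind .var φ = φ := by
  induction φ with
  | var x => rfl
  | neg φ ih => simp only [bind, ih]
  | or t φs ih => simp only [bind, ih]
  | md i t φs ih => simp only [bind, ih]

theorem bind_congr {f g : α → Fm p β} (φ : Fm p α) (h : Uses (fun x => f x = g x) φ) :
    bind f φ = bind g φ := by
  induction φ with
  | var x => exact h
  | neg φ ih => simp only [bind, ih h]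
  | or t φs ih =>
    simp only [bind]
    congr 1
    funext j
    exact ih j (h j)
  | md i t φs ih =>
    simp only [bind]
    congr 1
    funext j
    exact ih j (h j)

theorem ev_bind (a : β → Bool) (f : α → Fm p β) (φ : Fm p α) :
    ev a (bind f φ) = ev (fun x => ev a (f x)) φ := by
  induction φ with
  | var x => rfl
  | neg φ ih => simp only [bind, ev, ih]
  | or t φs ih => simp only [bind, ev, ih]
  | md i t φs ih => simp only [bind, ev, ih]

theorem mdFree_bind {f : α → Fm p β} (hf : ∀ x, MdFree (f x)) {φ : Fm p α} (h : MdFree φ) :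
    MdFree (bind f φ) := by
  induction φ with
  | var x => exact hf x
  | neg φ ih => exact ih h
  | or t φs ih => exact fun j => ih j (h j)
  | md i t φs _ => exact h.elim

theorem tops_of_mdFree {φ : Fm p α} (h : MdFree φ) : φ.tops = ∅ := by
  classical
  induction φ with
  | var x => rfl
  | neg φ ih => exact ih h
  | or t φs ih =>
    rw [Finset.eq_empty_iff_forall_notMem]
    intro χ hχ
    simp only [Fm.tops, mem_biUnion, mem_univ, true_and] at hχ
    obtain ⟨j, hj⟩ := hχ
    rw [ih j (h j)] at hj
    exact notMem_empty _ hj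
  | md i t φs _ => exact h.elim

open Classical in
theorem tops_bind {f : α → Fm p β} (hf : ∀ x, (f x).tops = ∅) (φ : Fm p α) :
    (bind f φ).tops ⊆ φ.tops.image (bind f) := by
  induction φ with
  | var x => simp only [bind, hf]; exact empty_subset _
  | neg φ ih => exact ih
  | or t φs ih =>
    intro χ hχ
    simp only [bind, Fm.tops, mem_biUnion, mem_univ, true_and] at hχ
    obtain ⟨j, hj⟩ := hχ
    obtain ⟨ψ, h1, h2⟩ := mem_image.1 (ih j hj)
    rw [mem_image]
    refine ⟨ψ, ?_, h2⟩
    simp only [Fm.tops, mem_biUnion, mem_univ, true_and]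
    exact ⟨j, h1⟩
  | md i t φs _ =>
    simp only [bind, Fm.tops, image_singleton]
    exact subset_rfl

theorem tops_bind_card {f : α → Fm p β} (hf : ∀ x, (f x).tops = ∅) (φ : Fm p α) :
    (bind f φ).tops.card ≤ φ.tops.card := by
  classical
  exact (card_le_card (tops_bind hf φ)).trans card_image_le

theorem depth_bind {f : α → Fm p β} {D : ℕ} (hf : ∀ x, (f x).depth ≤ D) (φ : Fm p α) :
    (bind f φ).depth ≤ φ.depth + D := by
  induction φ with
  | var x => simpa [bind, Fm.depth] using hf x
  | neg φ ih => simp only [bind, Fm.depth]; omega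
  | or t φs ih =>
    simp only [bind, Fm.depth]
    have : univ.sup (fun j => (bind f (φs j)).depth) ≤ univ.sup (fun j => (φs j).depth) + D := by
      refine Finset.sup_le fun j _ => (ih j).trans ?_
      exact Nat.add_le_add_right (Finset.le_sup (f := fun j => (φs j).depth) (mem_univ j)) D
    omega
  | md i t φs ih =>
    simp only [bind, Fm.depth]
    have : univ.sup (fun j => (bind f (φs j)).depth) ≤ univ.sup (fun j => (φs j).depth) + D := by
      refine Finset.sup_le fun j _ => (ih j).trans ?_
      exact Nat.add_le_add_right (Finset.le_sup (f := fun j => (φs j).depth) (mem_univ j)) D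
    omega

theorem mem_sub_bind (f : α → Fm p β) {φ ψ : Fm p α} (h : ψ ∈ φ.sub) :
    bind f ψ ∈ (bind f φ).sub := by
  classical
  induction φ with
  | var x =>
    simp only [Fm.sub, mem_singleton] at h
    rw [h]
    exact self_mem_sub _
  | neg φ ih =>
    simp only [Fm.sub, mem_insert] at h
    rcases h with rfl | h
    · exact self_mem_sub _
    · simp only [bind, Fm.sub, mem_insert]
      exact Or.inr (ih h)
  | or t φs ih =>
    simp only [Fm.sub, mem_insert, mem_biUnion, mem_univ, true_and] at h
    rcases h with rfl | ⟨j, h⟩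
    · exact self_mem_sub _
    · simp only [bind, Fm.sub, mem_insert, mem_biUnion, mem_univ, true_and]
      exact Or.inr ⟨j, ih j h⟩
  | md i t φs ih =>
    simp only [Fm.sub, mem_insert, mem_biUnion, mem_univ, true_and] at h
    rcases h with rfl | ⟨j, h⟩
    · exact self_mem_sub _
    · simp only [bind, Fm.sub, mem_insert, mem_biUnion, mem_univ, true_and]
      exact Or.inr ⟨j, ih j h⟩

/-- the subformulas of the formula substituted for a variable -/
noncomputable def varSub (f : α → Fm p β) : Fm p α → Finset (Fm p β)
  | .var x => (f x).sub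
  | _ => ∅

open Classical in
theorem sub_bind (f : α → Fm p β) (φ : Fm p α) :
    (bind f φ).sub ⊆ φ.sub.biUnion (fun ψ => insert (bind f ψ) (varSub f ψ)) := by
  induction φ with
  | var x =>
    intro χ hχ
    simp only [bind] at hχ
    simp only [Fm.sub, singleton_biUnion, mem_insert, varSub]
    exact Or.inr hχ
  | neg φ ih =>
    intro χ hχ
    simp only [bind, Fm.sub, mem_insert] at hχ
    rcases hχ with rfl | hχ
    · rw [mem_biUnion]
      exact ⟨.neg φ, self_mem_sub _, mem_insert_self _ _⟩
    · obtain ⟨ψ, h1, h2⟩ := mem_biUnion.1 (ih hχ)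
      rw [mem_biUnion]
      refine ⟨ψ, ?_, h2⟩
      simp only [Fm.sub, mem_insert]
      exact Or.inr h1
  | or t φs ih =>
    intro χ hχ
    simp only [bind, Fm.sub, mem_insert, mem_biUnion, mem_univ, true_and] at hχ
    rcases hχ with rfl | ⟨j, hχ⟩
    · rw [mem_biUnion]
      exact ⟨.or t φs, self_mem_sub _, mem_insert_self _ _⟩
    · obtain ⟨ψ, h1, h2⟩ := mem_biUnion.1 (ih j hχ)
      rw [mem_biUnion]
      refine ⟨ψ, ?_, h2⟩
      simp only [Fm.sub, mem_insert, mem_biUnion, mem_univ, true_and]
      exact Or.inr ⟨j, h1⟩
  | md i t φs ih =>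
    intro χ hχ
    simp only [bind, Fm.sub, mem_insert, mem_biUnion, mem_univ, true_and] at hχ
    rcases hχ with rfl | ⟨j, hχ⟩
    · rw [mem_biUnion]
      exact ⟨.md i t φs, self_mem_sub _, mem_insert_self _ _⟩
    · obtain ⟨ψ, h1, h2⟩ := mem_biUnion.1 (ih j hχ)
      rw [mem_biUnion]
      refine ⟨ψ, ?_, h2⟩
      simp only [Fm.sub, mem_insert, mem_biUnion, mem_univ, true_and]
      exact Or.inr ⟨j, h1⟩

theorem sub_bind_card {f : α → Fm p β} {M : ℕ} (hf : ∀ x, (f x).sub.card ≤ M) (φ : Fm p α) :
    (bind f φ).sub.card ≤ φ.sub.card * (1 + M) := by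
  classical
  refine (card_le_card (sub_bind f φ)).trans ?_
  refine card_biUnion_le.trans ?_
  refine (Finset.sum_le_card_nsmul _ _ (1 + M) (fun ψ _ => ?_)).trans (by rw [smul_eq_mul])
  refine (card_insert_le _ _).trans ?_
  have : (varSub f ψ).card ≤ M := by
    cases ψ with
    | var x => exact hf x
    | neg φ => simp [varSub]
    | or t φs => simp [varSub]
    | md i t φs => simp [varSub]
  omega

theorem respMod_bind {f : α → Fm p β} {V : Fm p β → Bool} (h : RespMod V) :
    RespMod (fun φ => V (bind f φ)) := by
  intro i t φs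
  exact h i t _

theorem respAt_bind {f : α → Fm p β} {V : Fm p β → Bool} {χ : Fm p α}
    (h : RespAt V (bind f χ)) : RespAt (fun φ => V (bind f φ)) χ := by
  cases χ with
  | var x => trivial
  | neg φ => exact h
  | or t φs => exact h
  | md i t φs => trivial

/-- constants -/
def cst (b : Bool) : Fm p α :=
  if b then .neg (.or 0 (fun j => j.elim0)) else .or 0 (fun j => j.elim0)

theorem ev_cst (a : α → Bool) (b : Bool) : ev a (cst (p := p) b) = b := by
  cases b <;> simp [cst, ev]

theorem mdFree_cst (b : Bool) : MdFree (cst (p := p) (α := α) b) := by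
  cases b
  · exact fun j => j.elim0
  · exact fun j => j.elim0

theorem depth_cst (b : Bool) : (cst (p := p) (α := α) b).depth ≤ 2 := by
  cases b <;> simp [cst, Fm.depth]

theorem sub_cst (b : Bool) : (cst (p := p) (α := α) b).sub.card ≤ 2 := by
  classical
  cases b
  · simp [cst, Fm.sub]
  · have : (cst (p := p) (α := α) true).sub ⊆
        {.neg (.or 0 (fun j => j.elim0)), .or 0 (fun j => j.elim0)} := by
      intro χ hχ
      simp only [cst, if_true, Fm.sub, mem_insert, mem_biUnion, mem_univ, true_and] at hχ
      rw [mem_insert, mem_singleton]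
      rcases hχ with h | h | ⟨j, _⟩
      · exact Or.inl h
      · exact Or.inr h
      · exact j.elim0
    exact (card_le_card this).trans card_le_two

section dnf

variable {s : ℕ}

/-- the literals of the conjunction which describes `v`, negated -/
def lit (v : Fin s → Bool) (i : Fin s) : Fm p (Fin s) := if v i then .neg (.var i) else .var i

/-- the conjunction which describes `v` -/
def term (v : Fin s → Bool) : Fm p (Fin s) := .neg (.or s (lit v))

theorem ev_term (v w : Fin s → Bool) : ev w (term (p := p) v) = decide (v = w) := by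
  have h : ev w (term (p := p) v) = !(decide (∃ i, ev w (lit (p := p) v i) = true)) := rfl
  rw [h]
  have h2 : (∃ i, ev w (lit (p := p) v i) = true) ↔ ¬ v = w := by
    rw [funext_iff, not_forall]
    refine exists_congr fun i => ?_
    unfold lit
    cases v i <;> cases hw : w i <;> simp [ev, hw]
  by_cases h3 : v = w
  · have h4 : ¬ ∃ i, ev w (lit (p := p) v i) = true := fun h => h2.1 h h3
    rw [decide_eq_false h4, decide_eq_true h3]
    rfl
  · rw [decide_eq_true (h2.2 h3), decide_eq_false h3]
    rfl

/-- the disjunctive normal form of a Boolean function -/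
noncomputable def dnf (g : (Fin s → Bool) → Bool) : Fm p (Fin s) :=
  .or (univ.filter fun v => g v = true).card
    (fun j => term ((univ.filter fun v => g v = true).equivFin.symm j).1)

theorem ev_dnf (g : (Fin s → Bool) → Bool) (w : Fin s → Bool) :
    ev w (dnf (p := p) g) = g w := by
  have h : ev w (dnf (p := p) g) = decide (∃ j, ev w (term (p := p)
      ((univ.filter fun v => g v = true).equivFin.symm j).1) = true) := rfl
  rw [h]
  have h2 : (∃ j, ev w (term (p := p)
      ((univ.filter fun v => g v = true).equivFin.symm j).1) = true) ↔ g w = true := by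
    constructor
    · rintro ⟨j, hj⟩
      rw [ev_term, decide_eq_true_eq] at hj
      have h3 := ((univ.filter fun v => g v = true).equivFin.symm j).2
      rw [mem_filter] at h3
      rw [← hj]
      exact h3.2
    · intro hw
      have hm : w ∈ univ.filter fun v => g v = true := by simp [hw]
      refine ⟨(univ.filter fun v => g v = true).equivFin ⟨w, hm⟩, ?_⟩
      rw [Equiv.symm_apply_apply, ev_term]
      simp
  cases hg : g w
  · rw [decide_eq_false_iff_not, h2, hg]
    simp
  · rw [decide_eq_true_eq, h2]
    exact hg

theorem mdFree_lit (v : Fin s → Bool) (i : Fin s) : MdFree (lit (p := p) v i) := by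
  unfold lit
  split
  · trivial
  · trivial

theorem mdFree_dnf (g : (Fin s → Bool) → Bool) : MdFree (dnf (p := p) g) :=
  fun _ => fun i => mdFree_lit _ i

theorem depth_dnf (g : (Fin s → Bool) → Bool) : (dnf (p := p) g).depth ≤ 4 := by
  have h1 : ∀ v : Fin s → Bool, ∀ i, (lit (p := p) v i).depth ≤ 1 := by
    intro v i
    unfold lit
    split <;> simp [Fm.depth]
  have h2 : ∀ v : Fin s → Bool, (term (p := p) v).depth ≤ 3 := by
    intro v
    simp only [term, Fm.depth]
    have : univ.sup (fun i => (lit (p := p) v i).depth) ≤ 1 := Finset.sup_le fun i _ => h1 v i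
    omega
  simp only [dnf, Fm.depth]
  have : univ.sup (fun j => (term (p := p)
      ((univ.filter fun v => g v = true).equivFin.symm j).1).depth) ≤ 3 :=
    Finset.sup_le fun j _ => h2 _
  omega

theorem sub_dnf (g : (Fin s → Bool) → Bool) :
    (dnf (p := p) g).sub.card ≤ 1 + 2 ^ s * (2 + s * 2) := by
  classical
  have h1 : ∀ v : Fin s → Bool, ∀ i, (lit (p := p) v i).sub.card ≤ 2 := by
    intro v i
    unfold lit
    split
    · simp only [Fm.sub]
      exact (card_insert_le _ _).trans (by simp)
    · simp [Fm.sub]
  have h2 : ∀ v : Fin s → Bool, (term (p := p) v).sub.card ≤ 2 + s * 2 := by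
    intro v
    simp only [term, Fm.sub]
    refine (card_insert_le _ _).trans ?_
    have h3 := card_insert_le (Fm.or s (lit (p := p) v))
      (univ.biUnion (fun i => (lit (p := p) v i).sub))
    have h4 : (univ.biUnion (fun i => (lit (p := p) v i).sub)).card ≤ s * 2 := by
      refine card_biUnion_le.trans ?_
      refine (Finset.sum_le_card_nsmul _ _ 2 (fun i _ => h1 v i)).trans ?_
      rw [card_univ, Fintype.card_fin, smul_eq_mul]
    omega
  simp only [dnf, Fm.sub]
  refine (card_insert_le _ _).trans ?_
  have h5 : (univ.biUnion (fun j => (term (p := p)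
      ((univ.filter fun v => g v = true).equivFin.symm j).1).sub)).card ≤
      2 ^ s * (2 + s * 2) := by
    refine card_biUnion_le.trans ?_
    refine (Finset.sum_le_card_nsmul _ _ (2 + s * 2) (fun j _ => h2 _)).trans ?_
    rw [card_univ, Fintype.card_fin, smul_eq_mul]
    refine Nat.mul_le_mul_right _ ?_
    refine (card_filter_le _ _).trans ?_
    rw [card_univ, Fintype.card_fun, Fintype.card_fin, Fintype.card_bool]
  omega

end dnf

end Pool.Agent.J6H27.EF
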