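import Pool.Agent.J6H27.EF.Defs
import Pool.Agent.Helper600R2.Cnt.Final

/-!
# Constant-depth Frege with counting axioms and local tautologies

The system of `Helper600R2.Cnt` (constant-depth Frege with few `MOD p` gates, local inferences,
axioms of the counting principle modulo `q`), with additional axioms: all substitution instances
of tautologies in few variables.
-/

set_option linter.unusedSectionVars false
set_option autoImplicit false

namespace Pool.Agent.J6H27.EF

open Finset Pool.Agent.Helper600R2 Pool.Agent.Helper600R2.Cnt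

section defs

variable {p : ℕ} {α : Type}

/-- `φ` is obtained from a tautology `Φ` in `s` variables, without `MOD` gates, by the substitution
of formulas of `𝒰`. -/
def LocalTaut (s : ℕ) (𝒰 : Finset (Fm p α)) (φ : Fm p α) : Prop :=
  ∃ (F : Fin s → Fm p α) (Φ : Fm p (Fin s)), (∀ i, F i ∈ 𝒰) ∧ MdFree Φ ∧
    (∀ v, ev v Φ = true) ∧ φ = bind F Φ

/-- The formulas which are derivable if all formulas have to be in `𝒰`. -/
inductive Der (c s : ℕ) {q N : ℕ} (𝒰 : Finset (Fm p (Var q N))) : Fm p (Var q N) → Prop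
  | ax {φ : Fm p (Var q N)} : φ ∈ 𝒰 → IsAxiom φ → Der c s 𝒰 φ
  | taut {φ : Fm p (Var q N)} : φ ∈ 𝒰 → LocalTaut s 𝒰 φ → Der c s 𝒰 φ
  | inf {φ : Fm p (Var q N)} (P Q : Finset (Fm p (Var q N))) : φ ∈ 𝒰 → P.card ≤ c → Q.card ≤ c →
      Q ⊆ 𝒰 → (∀ χ ∈ P, Der c s 𝒰 χ) →
      (∀ V : Fm p (Var q N) → Bool, RespMod V → (∀ χ ∈ Q, RespAt V χ) →
        (∀ χ ∈ P, V χ = true) → V φ = true) → Der c s 𝒰 φ

theorem Der.mem {c s : ℕ} {q N : ℕ} {𝒰 : Finset (Fm p (Var q N))} {φ : Fm p (Var q N)}
    (h : Der c s 𝒰 φ) : φ ∈ 𝒰 := by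
  cases h <;> assumption

end defs

section forcing

variable {p q N k : ℕ}

theorem W_bind {π : PS N} (tvf : MF N → Bool) {n : ℕ} (F : Fin n → Fm p (Var q N))
    (v : Fin n → Bool) (hF : ∀ i, W q k (rd (fun a : Var q N => a.1) tvf (F i)) (v i) π)
    (Φ : Fm p (Fin n)) (h1 : MdFree Φ) :
    W q k (rd (fun a : Var q N => a.1) tvf (bind F Φ)) (ev v Φ) π := by
  induction Φ with
  | var i => exact hF i
  | neg φ ih =>
    simp only [bind, rd, ev, W, Bool.not_not]
    exact ih h1
  | or t φs ih =>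
    simp only [bind, rd, ev]
    by_cases hex : ∃ j, ev v (φs j) = true
    · rw [decide_eq_true hex, W_or_true]
      obtain ⟨j, hj⟩ := hex
      have := ih j (h1 j)
      rw [hj] at this
      exact ⟨j, this⟩
    · rw [decide_eq_false hex, W_or_false]
      intro π' g1 g2 g3 j hj
      push Not at hex
      have h3 := ih j (h1 j)
      have h4 : ev v (φs j) = false := by
        simpa using hex j
      rw [h4] at h3
      refine W_cons _ g1 ?_ hj (W_mono _ h3 g2 g1)
      refine le_trans (Nat.mul_le_mul_left q (Nat.add_le_add_left (Nat.mul_le_mul_left k ?_) _)) g3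
      exact (MF.dep_lt (fun j => rd (fun a : Var q N => a.1) tvf (bind F (φs j))) j).le
  | md i t φs _ => exact h1.elim

theorem check_local {ρ y : PS N} (hy : IsPP q y) (hρy : ρ ⊆ y) {s : ℕ} (tvf : MF N → Bool)
    (F : Fin s → Fm p (Var q N)) (Φ : Fm p (Fin s)) (h1 : MdFree Φ) (h3 : ∀ v, ev v Φ = true)
    (hroom : q * (ρ.card + (s + 1) * k +
      k * (rd (fun a : Var q N => a.1) tvf (bind F Φ)).dep) ≤ N)
    (hT : HasT q k (rd (fun a : Var q N => a.1) tvf (bind F Φ)) ρ k)
    (hTF : ∀ i, HasT q k (rd (fun a : Var q N => a.1) tvf (F i)) ρ k)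
    (hck : ((tr q k ρ (rd (fun a : Var q N => a.1) tvf (bind F Φ))).eval y).isNone = false)
    (hckF : ∀ i, ((tr q k ρ (rd (fun a : Var q N => a.1) tvf (F i))).eval y).isNone = false) :
    tv q k ρ y (rd (fun a : Var q N => a.1) tvf (bind F Φ)) = true := by
  classical
  set ψ := rd (fun a : Var q N => a.1) tvf (bind F Φ) with hψ
  cases hσ : (tr q k ρ ψ).eval y with
  | none => rw [hσ] at hck; simp at hck
  | some σ =>
    obtain ⟨a1, a2, a3, a4⟩ := tr_rep hT y hy hρy σ hσ
    rw [tv_iff]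
    refine ⟨σ, hσ, ?_⟩
    rcases a4 with h | h
    · exact h
    · exfalso
      have hex : ∀ i, ∃ τ : PS N, ρ ⊆ τ ∧ τ ⊆ y ∧ τ.card ≤ ρ.card + k ∧
          ∃ b, W q k (rd (fun a : Var q N => a.1) tvf (F i)) b τ := by
        intro i
        cases hτ : (tr q k ρ (rd (fun a : Var q N => a.1) tvf (F i))).eval y with
        | none =>
          have := hckF i
          rw [hτ] at this
          simp at this
        | some τ =>
          obtain ⟨b1, b2, b3, b4⟩ := tr_rep (hTF i) y hy hρy τ hτ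
          refine ⟨τ, b1, b2, b3, ?_⟩
          rcases b4 with b4 | b4
          · exact ⟨true, b4⟩
          · exact ⟨false, b4⟩
      choose τ t1 t2 t3 v t4 using hex
      set π : PS N := σ ∪ univ.biUnion τ with hπ
      have hsub : π ⊆ y := union_subset a2 (biUnion_subset.2 fun i _ => t2 i)
      have hW := W_bind (k := k) (π := π) tvf F v (fun i => W_mono _ (t4 i)
        ((subset_biUnion_of_mem τ (mem_univ i)).trans subset_union_right) (hy.mono hsub)) Φ h1
      rw [h3] at hW
      have hc : π.card ≤ ρ.card + (s + 1) * k := by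
        have e1 : π ⊆ ρ ∪ ((σ \ ρ) ∪ univ.biUnion (fun i => τ i \ ρ)) := by
          intro B hB
          rw [hπ, mem_union, mem_biUnion] at hB
          rw [mem_union, mem_union, mem_sdiff, mem_biUnion]
          by_cases hBρ : B ∈ ρ
          · exact Or.inl hBρ
          · rcases hB with hB | ⟨i, hi, hB⟩
            · exact Or.inr (Or.inl ⟨hB, hBρ⟩)
            · exact Or.inr (Or.inr ⟨i, hi, mem_sdiff.2 ⟨hB, hBρ⟩⟩)
        have e2 : ∀ σ' : PS N, ρ ⊆ σ' → σ'.card ≤ ρ.card + k → (σ' \ ρ).card ≤ k := by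
          intro σ' g1 g2
          have : (σ' \ ρ).card + ρ.card = σ'.card := card_sdiff_add_card_eq_card g1
          omega
        have e3 : (univ.biUnion (fun i => τ i \ ρ)).card ≤ s * k := by
          refine card_biUnion_le.trans ?_
          refine (Finset.sum_le_card_nsmul _ _ k (fun i _ => e2 _ (t1 i) (t3 i))).trans ?_
          rw [card_univ, Fintype.card_fin, smul_eq_mul]
        calc π.card ≤ (ρ ∪ ((σ \ ρ) ∪ univ.biUnion (fun i => τ i \ ρ))).card := card_le_card e1
          _ ≤ ρ.card + ((σ \ ρ).card + (univ.biUnion (fun i => τ i \ ρ)).card) :=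
            (card_union_le _ _).trans (Nat.add_le_add_left (card_union_le _ _) _)
          _ ≤ ρ.card + (k + s * k) :=
            Nat.add_le_add_left (Nat.add_le_add (e2 _ a1 a3) e3) _
          _ = ρ.card + (s + 1) * k := by ring
      exact W_cons _ (hy.mono hsub)
        ((Nat.mul_le_mul_left q (Nat.add_le_add_right hc _)).trans hroom) hW
        (W_mono _ h subset_union_left (hy.mono hsub))

end forcing

section degree

variable {Vt E : Type*} [Fintype Vt] [Fintype E] [DecidableEq Vt] (hd tl : E → Vt) {q : ℕ}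
  [NeZero q] {K : Type*} [Field K] (ψ : AddChar (ZMod q) K)

/-- one inference in the degree argument -/
theorem null_step (hψ : ψ.IsPrimitive) (b : Vt → ZMod q)
    (hVt : 3 < Fintype.card Vt) (w k : ℕ)
    (hconn : ∀ u : Vt → ZMod q, dd hd tl u = 0 → (nsupp u).card < Fintype.card Vt → u = 0)
    (hexp : ∀ u : Vt → ZMod q, (nsupp (dd hd tl u)).card ≤ 2 * ((k + 1) * w) →
      3 * (nsupp u).card < 2 * Fintype.card Vt → 3 * (nsupp u).card < Fintype.card Vt)
    (f : (E → ZMod q) → Bool) (hf : toK K f ∈ DC ψ w)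
    (P Q : Finset ((E → ZMod q) → Bool)) (hPQ : P.card + Q.card ≤ k)
    (hP : ∀ g ∈ P, toK K g ∈ DC ψ w ∧ 1 - toK K g ∈ NF hd tl ψ b w)
    (hQ : ∀ g ∈ Q, toK K g ∈ DC ψ w ∧ toK K g ∈ NF hd tl ψ b w)
    (hstep : ∀ z, (∀ g ∈ P, g z = true) → (∀ g ∈ Q, g z = false) → f z = true) :
    (1 : (E → ZMod q) → K) - toK K f ∈ NF hd tl ψ b w := by
  classical
  obtain ⟨R, hR1, hR2, hR3⟩ := exists_reduction hd tl ψ hψ b ((k + 1) * w)
    (by omega) hconn hexp
  have hw : w ≤ (k + 1) * w := Nat.le_mul_of_pos_left w (Nat.succ_pos k)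
  have hdown : ∀ g ∈ DC ψ w, g ∈ NF hd tl ψ b ((k + 1) * w) → g ∈ NF hd tl ψ b w := by
    intro g hg hg'
    have h1 := hR2 w hw g hg
    rw [hR1 g hg', sub_zero] at h1
    exact h1
  have hone : (1 : (E → ZMod q) → K) - toK K f ∈ DC ψ w :=
    Submodule.sub_mem _ (one_mem_DC ψ w) hf
  apply hdown _ hone
  obtain ⟨a1, a2⟩ := prod_null hd tl ψ b w P (fun g => toK K g)
    (fun g hg => (hP g hg).1) (fun g hg => (hP g hg).2)
  obtain ⟨b1, b2⟩ := prod_null hd tl ψ b w Q (fun g => 1 - toK K g)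
    (fun g hg => Submodule.sub_mem _ (one_mem_DC ψ w) (hQ g hg).1)
    (fun g hg => by rw [sub_sub_cancel]; exact (hQ g hg).2)
  have h1 : (1 : (E → ZMod q) → K) -
      (∏ g ∈ P, toK K g) * (∏ g ∈ Q, (1 - toK K g)) ∈
      NF hd tl ψ b (P.card * w + Q.card * w) := by
    have h4 : (1 : (E → ZMod q) → K) -
        (∏ g ∈ P, toK K g) * (∏ g ∈ Q, (1 - toK K g)) =
        (1 - ∏ g ∈ P, toK K g) * (∏ g ∈ Q, (1 - toK K g)) +
          (1 - ∏ g ∈ Q, (1 - toK K g)) := by
      ring
    rw [h4]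
    exact Submodule.add_mem _ (NF_mul hd tl ψ a2 b1) (NF_mono hd tl ψ (by omega) b2)
  have h2 := NF_mul hd tl ψ h1 hone
  have h3 : ((1 : (E → ZMod q) → K) -
      (∏ g ∈ P, toK K g) * (∏ g ∈ Q, (1 - toK K g))) * (1 - toK K f) =
      1 - toK K f := by
    funext z
    by_cases hz : f z = true
    · simp [toK, hz]
    · have h5 : ((∏ g ∈ P, toK K g) * (∏ g ∈ Q, (1 - toK K g))) z = 0 := by
        rw [Pi.mul_apply, Finset.prod_apply, Finset.prod_apply]
        by_cases hPz : ∀ g ∈ P, g z = true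
        · have : ∃ g ∈ Q, g z = true := by
            by_contra hcon
            push Not at hcon
            exact hz (hstep z hPz (fun g hg => by simpa using hcon g hg))
          obtain ⟨g, hg, hgz⟩ := this
          rw [Finset.prod_eq_zero (s := Q) hg (by simp [toK, hgz]), mul_zero]
        · push Not at hPz
          obtain ⟨j, hj, hjz⟩ := hPz
          rw [Finset.prod_eq_zero (s := P) hj (by simp [toK, hjz]), zero_mul]
      simp only [Pi.mul_apply, Pi.sub_apply, Pi.one_apply] at h5 ⊢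
      rw [h5]
      ring
  rw [h3] at h2
  refine NF_mono hd tl ψ ?_ h2
  have : (P.card + Q.card) * w ≤ k * w := Nat.mul_le_mul_right w hPQ
  nlinarith

/-- the constant function `false` is not almost always true -/
theorem null_final (hψ : ψ.IsPrimitive) (b : Vt → ZMod q)
    (hVt : 3 < Fintype.card Vt) (w k : ℕ)
    (hconn : ∀ u : Vt → ZMod q, dd hd tl u = 0 → (nsupp u).card < Fintype.card Vt → u = 0)
    (hexp : ∀ u : Vt → ZMod q, (nsupp (dd hd tl u)).card ≤ 2 * ((k + 1) * w) →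
      3 * (nsupp u).card < 2 * Fintype.card Vt → 3 * (nsupp u).card < Fintype.card Vt)
    (f : (E → ZMod q) → Bool) (hf : (1 : (E → ZMod q) → K) - toK K f ∈ NF hd tl ψ b w) :
    ∃ z, f z = true := by
  obtain ⟨R, hR1, hR2, hR3⟩ := exists_reduction hd tl ψ hψ b ((k + 1) * w)
    (by omega) hconn hexp
  have hw : w ≤ (k + 1) * w := Nat.le_mul_of_pos_left w (Nat.succ_pos k)
  by_contra hcon
  push Not at hcon
  have h0 : toK K f = 0 := by
    funext z
    simp [toK, hcon z]
  rw [h0, sub_zero] at hf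
  exact hR3 (hR1 1 (NF_mono hd tl ψ hw hf))

end degree

section main

variable {Vt E : Type} [Fintype Vt] [Fintype E] [DecidableEq Vt] [DecidableEq E]
  (hd tl : E → Vt) {q : ℕ} [NeZero q] {K : Type*} [Field K] (ψ : AddChar (ZMod q) K)
  {p : ℕ} [Fact p.Prime] [CharP K p]

theorem no_der (hψ : ψ.IsPrimitive) (hqK : (q : K) ≠ 0) (hVt : 3 < Fintype.card Vt)
    (hinc : ∀ v : Vt, (inc hd tl v).card ≤ 4) (c d k G s : ℕ) (hk : 1 ≤ k)
    (hconn : ∀ u : Vt → ZMod q, dd hd tl u = 0 → (nsupp u).card < Fintype.card Vt → u = 0)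
    (hexp : ∀ u : Vt → ZMod q,
      (nsupp (dd hd tl u)).card ≤ 2 * ((2 * c + s + 1 + 1) * ww k p G d) →
      3 * (nsupp u).card < 2 * Fintype.card Vt → 3 * (nsupp u).card < Fintype.card Vt)
    {N : ℕ} (ρ : PS N) (hρ : IsPP q ρ)
    (hN : Fintype.card E * (2 * (q - 1)) + q * ρ.card ≤ N)
    (𝒰 : Finset (Fm p (Var q N))) (h𝒰 : ClosedFm 𝒰)
    (hdepth : ∀ φ ∈ 𝒰, φ.depth ≤ d) (hG : ∀ φ ∈ 𝒰, φ.tops.card ≤ G)
    (hroom : q * (ρ.card + (s + 2) * k + k * d) ≤ N)
    (hT : ∀ χ ∈ fam (fun a : Var q N => a.1) 𝒰, HasT q k χ ρ k)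
    (f₀ : Fin 0 → Fm p (Var q N)) : ¬ Der c s 𝒰 (.or 0 f₀) := by
  classical
  obtain ⟨b, y, hGood⟩ := exists_good hd tl ψ hψ hqK hVt hinc N ρ hρ hN
  set blk : Var q N → Finset (Fin N) := fun a => a.1 with hblk
  -- trees exist for all values
  have hrdT : ∀ z, ∀ φ ∈ 𝒰, HasT q k (rd blk (tv q k ρ (y z)) φ) ρ k := by
    intro z φ hφ
    rw [rd_eq_subst (fun b => tv_cst (y z) b)]
    exact hT _ (mem_fam blk hφ _)
  have hrdD : ∀ z, ∀ φ ∈ 𝒰, (rd blk (tv q k ρ (y z)) φ).dep ≤ d := by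
    intro z φ hφ
    rw [rd_eq_subst (fun b => tv_cst (y z) b)]
    exact (subst_dep blk _ φ).trans (hdepth φ hφ)
  have hroom' : ∀ (z : E → ZMod q), ∀ φ ∈ 𝒰,
      q * (ρ.card + 2 * k + k * (rd blk (tv q k ρ (y z)) φ).dep) ≤ N := by
    intro z φ hφ
    refine (Nat.mul_le_mul_left q ?_).trans hroom
    have h1 := Nat.mul_le_mul_left k (hrdD z φ hφ)
    have h2 : 2 * k ≤ (s + 2) * k := Nat.mul_le_mul_right k (by omega)
    omega
  have hroom2 : ∀ (z : E → ZMod q), ∀ φ ∈ 𝒰,
      q * (ρ.card + (s + 1) * k + k * (rd blk (tv q k ρ (y z)) φ).dep) ≤ N := by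
    intro z φ hφ
    refine (Nat.mul_le_mul_left q ?_).trans hroom
    have h1 := Nat.mul_le_mul_left k (hrdD z φ hφ)
    have h2 : (s + 1) * k ≤ (s + 2) * k := Nat.mul_le_mul_right k (by omega)
    omega
  -- failure functions
  have hfail1 := fun (φ : Fm p (Var q N)) (hφ : φ ∈ 𝒰) =>
    fail_null (p := p) (blk := blk) (k := k) hψ hqK hGood h𝒰 G hG d hdepth φ hφ (k + k)
      (ck q k ρ) (fun χ => ck_ht χ)
  have hfail2 := fun (φ : Fm p (Var q N)) (hφ : φ ∈ 𝒰) (u : Fin N) =>
    fail_null (p := p) (blk := blk) (k := k) hψ hqK hGood h𝒰 G hG d hdepth φ hφ (k + 1)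
      (ckA q k ρ u) (fun χ => ckA_ht u χ)
  have hfail3 := fun (φ : Fm p (Var q N)) (hφ : φ ∈ 𝒰) =>
    fail_null (p := p) (blk := blk) (k := k) hψ hqK hGood h𝒰 G hG d hdepth φ hφ k
      (tr q k ρ) (fun χ => tr_ht χ)
  have hdeg : ∀ φ ∈ 𝒰, toK K (fun z => Vz q k ρ blk y z φ) ∈ DC ψ (ww k p G d) := by
    intro φ hφ
    apply J_le_DC ψ hψ hqK
    refine J_mono ?_ ((Vz_deg hGood h𝒰 G hG d).1 φ hφ (hdepth _ hφ))
    unfold ww
    omega
  have main : ∀ φ, Der c s 𝒰 φ →
      (1 : (E → ZMod q) → K) - toK K (fun z => Vz q k ρ blk y z φ) ∈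
        NF hd tl ψ b (ww k p G d) := by
    intro φ hφ
    induction hφ with
    | @ax φ hmem hax =>
      obtain ⟨t, φs, u, hLi, hforced⟩ := axiom_forced hax
      subst hLi
      refine null_step hd tl ψ hψ b hVt (ww k p G d) (2 * c + s + 1) hconn hexp _ (hdeg _ hmem) ∅
        {fun z => ((ckA q k ρ u (rd blk (tv q k ρ (y z)) (.or t φs))).eval
          (y z)).isNone} (by simp) (by simp) ?_ ?_
      · intro g hg
        rw [mem_singleton] at hg
        subst hg
        obtain ⟨g1, g2⟩ := hfail2 (.or t φs) hmem u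
        refine ⟨DC_mono ψ ?_ g2, NF_mono hd tl ψ ?_ g1⟩ <;>
        · unfold ww
          omega
      · intro z _ hQz
        have h1 := hQz _ (mem_singleton_self _)
        have h2 := hroom' z _ hmem
        have h3 := hrdT z _ hmem
        exact check_ax hk (hGood.pp z) (hGood.ext z) h2 h3 u
          (hforced (tv q k ρ (y z)) k) h1
    | @taut φ hmem htaut =>
      obtain ⟨F, Φ, hFU, hmf, hval, rfl⟩ := htaut
      refine null_step hd tl ψ hψ b hVt (ww k p G d) (2 * c + s + 1) hconn hexp _ (hdeg _ hmem) ∅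
        ((insert (bind F Φ) (univ.image F)).image (fun χ z =>
          ((tr q k ρ (rd blk (tv q k ρ (y z)) χ)).eval (y z)).isNone)) ?_ (by simp) ?_ ?_
      · have h1 := card_image_le (s := insert (bind F Φ) (univ.image F))
          (f := fun (χ : Fm p (Var q N)) (z : E → ZMod q) =>
          ((tr q k ρ (rd blk (tv q k ρ (y z)) χ)).eval (y z)).isNone)
        have h2 := card_insert_le (bind F Φ) (univ.image F)
        have h3 := card_image_le (s := (univ : Finset (Fin s))) (f := F)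
        rw [card_univ, Fintype.card_fin] at h3
        rw [card_empty]
        omega
      · intro g hg
        obtain ⟨χ, hχ, rfl⟩ := mem_image.mp hg
        have hχU : χ ∈ 𝒰 := by
          rcases mem_insert.1 hχ with rfl | hχ
          · exact hmem
          · obtain ⟨i, _, rfl⟩ := mem_image.1 hχ
            exact hFU i
        obtain ⟨g1, g2⟩ := hfail3 χ hχU
        refine ⟨DC_mono ψ ?_ g2, NF_mono hd tl ψ ?_ g1⟩ <;>
        · unfold ww
          omega
      · intro z _ hQz
        exact check_local (hGood.pp z) (hGood.ext z) _ F Φ hmf hval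
          (hroom2 z _ hmem) (hrdT z _ hmem) (fun i => hrdT z _ (hFU i))
          (hQz _ (mem_image_of_mem (fun (χ : Fm p (Var q N)) (z : E → ZMod q) =>
            ((tr q k ρ (rd blk (tv q k ρ (y z)) χ)).eval (y z)).isNone) (mem_insert_self _ _)))
          (fun i => hQz _ (mem_image_of_mem (fun (χ : Fm p (Var q N)) (z : E → ZMod q) =>
            ((tr q k ρ (rd blk (tv q k ρ (y z)) χ)).eval (y z)).isNone)
            (mem_insert_of_mem (mem_image_of_mem F (mem_univ i)))))
    | @inf φ P Q hmem hP hQ hQU hder hinf ih =>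
      refine null_step hd tl ψ hψ b hVt (ww k p G d) (2 * c + s + 1) hconn hexp _ (hdeg _ hmem)
        (P.image (fun χ z => Vz q k ρ blk y z χ))
        (Q.image (fun χ z => ((ck q k ρ (rd blk (tv q k ρ (y z)) χ)).eval
          (y z)).isNone)) ?_ ?_ ?_ ?_
      · have h1 := card_image_le (s := P)
          (f := fun (χ : Fm p (Var q N)) (z : E → ZMod q) => Vz q k ρ blk y z χ)
        have h2 := card_image_le (s := Q) (f := fun (χ : Fm p (Var q N)) (z : E → ZMod q) =>
          ((ck q k ρ (rd blk (tv q k ρ (y z)) χ)).eval (y z)).isNone)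
        omega
      · intro g hg
        obtain ⟨χ, hχ, rfl⟩ := mem_image.mp hg
        exact ⟨hdeg χ (hder χ hχ).mem, ih χ hχ⟩
      · intro g hg
        obtain ⟨χ, hχ, rfl⟩ := mem_image.mp hg
        obtain ⟨g1, g2⟩ := hfail1 χ (hQU hχ)
        refine ⟨DC_mono ψ ?_ g2, NF_mono hd tl ψ ?_ g1⟩ <;>
        · unfold ww
          omega
      · intro z hPz hQz
        apply hinf (Vz q k ρ blk y z) (Vz_respMod z)
        · intro χ hχ
          have h1 : ((ck q k ρ (rd blk (tv q k ρ (y z)) χ)).eval (y z)).isNone = false :=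
            hQz _ (mem_image_of_mem _ hχ)
          have hχU := hQU hχ
          cases χ with
          | var a => trivial
          | md i t φs => trivial
          | neg φ =>
            have hφ := h𝒰.neg φ hχU
            exact check_neg (hGood.pp z) (hGood.ext z) (hroom' z φ hφ) (hrdT z φ hφ) h1
          | or t φs =>
            exact check_or (hGood.pp z) (hGood.ext z) (hroom' z _ hχU) (hrdT z _ hχU)
              (fun j => hrdT z _ (h𝒰.or t φs hχU j)) h1
        · intro χ hχ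
          exact hPz _ (mem_image_of_mem (fun χ z => Vz q k ρ blk y z χ) hχ)
  intro hder
  obtain ⟨z, hz⟩ := null_final hd tl ψ hψ b hVt (ww k p G d) (2 * c + s + 1) hconn hexp _
    (main _ hder)
  have h1 : tv q k ρ (y z) (rd blk (tv q k ρ (y z)) (.or 0 f₀)) = true := hz
  rw [tv_iff] at h1
  obtain ⟨σ, _, hσ⟩ := h1
  obtain ⟨j, _⟩ := W_or_true.mp hσ
  exact j.elim0

end main

end Pool.Agent.J6H27.EF
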