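import Pool.Agent.J6H27.EF.Trans

/-!
# The size of the translated derivation
-/

set_option autoImplicit false

namespace Pool.Agent.J6H27.EF

open Finset Pool.Agent.Helper600R2.Cnt

variable {p : ℕ} {α β : Type}

theorem le_depth_bind (f : α → Fm p β) (φ : Fm p α) : φ.depth ≤ (bind f φ).depth := by
  induction φ with
  | var x => exact Nat.zero_le _
  | neg φ ih => simp only [bind, Fm.depth]; omega
  | or t φs ih =>
    simp only [bind, Fm.depth]
    have : univ.sup (fun j => (φs j).depth) ≤ univ.sup (fun j => (bind f (φs j)).depth) :=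
      Finset.sup_mono_fun (fun j _ => ih j)
    omega
  | md i t φs ih =>
    simp only [bind, Fm.depth]
    have : univ.sup (fun j => (φs j).depth) ≤ univ.sup (fun j => (bind f (φs j)).depth) :=
      Finset.sup_mono_fun (fun j _ => ih j)
    omega

theorem depth_sub {φ ψ : Fm p α} (h : ψ ∈ φ.sub) : ψ.depth ≤ φ.depth := by
  classical
  induction φ with
  | var x =>
    simp only [Fm.sub, mem_singleton] at h
    rw [h]
  | neg φ ih =>
    simp only [Fm.sub, mem_insert] at h
    rcases h with rfl | h
    · exact le_rfl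
    · simp only [Fm.depth]
      exact (ih h).trans (Nat.le_succ _)
  | or t φs ih =>
    simp only [Fm.sub, mem_insert, mem_biUnion, mem_univ, true_and] at h
    rcases h with rfl | ⟨j, h⟩
    · exact le_rfl
    · simp only [Fm.depth]
      exact (ih j h).trans ((Finset.le_sup (f := fun j => (φs j).depth) (mem_univ j)).trans
        (Nat.le_succ _))
  | md i t φs ih =>
    simp only [Fm.sub, mem_insert, mem_biUnion, mem_univ, true_and] at h
    rcases h with rfl | ⟨j, h⟩
    · exact le_rfl
    · simp only [Fm.depth]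
      exact (ih j h).trans ((Finset.le_sup (f := fun j => (φs j).depth) (mem_univ j)).trans
        (Nat.le_succ _))

theorem mdFree_sub {φ ψ : Fm p α} (h : ψ ∈ φ.sub) (hφ : MdFree φ) : MdFree ψ := by
  classical
  induction φ with
  | var x =>
    simp only [Fm.sub, mem_singleton] at h
    rw [h]
    trivial
  | neg φ ih =>
    simp only [Fm.sub, mem_insert] at h
    rcases h with rfl | h
    · exact hφ
    · exact ih h hφ
  | or t φs ih =>
    simp only [Fm.sub, mem_insert, mem_biUnion, mem_univ, true_and] at h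
    rcases h with rfl | ⟨j, h⟩
    · exact hφ
    · exact ih j h (hφ j)
  | md i t φs _ => exact hφ.elim

variable {q N s k : ℕ} {E : Type}

theorem emb_injective : Function.Injective (emb (p := p) (q := q) (N := N) (k := k) (E := E)) := by
  apply Function.LeftInverse.injective (g := bind (Sum.elim (fun v => .var (.inl v))
    (Sum.elim (fun _ => cst false) (fun j => .var (.inr j)))))
  intro φ
  unfold emb
  rw [bind_bind]
  conv_rhs => rw [← bind_var φ]
  congr 1
  funext x
  rcases x with v | j <;> rfl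

theorem sub_emb (φ : Fm p (Var q N ⊕ Fin k)) :
    φ.sub.card ≤ (emb (E := E) φ).sub.card := by
  classical
  rw [← card_image_of_injective φ.sub (emb_injective (E := E))]
  apply card_le_card
  intro χ hχ
  obtain ⟨ψ, hψ, rfl⟩ := mem_image.1 hχ
  exact mem_sub_bind _ hψ

/-- a bound for the formulas which are substituted for variables -/
def MM (s S : ℕ) : ℕ := (1 + 2 ^ s * (2 + s * 2)) * (1 + S * 3)

theorem two_le_MM (s S : ℕ) : 2 ≤ MM s S := by
  unfold MM
  have h1 : 1 ≤ 2 ^ s := Nat.one_le_two_pow
  have h2 : 2 ≤ 1 + 2 ^ s * (2 + s * 2) := by nlinarith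
  calc 2 ≤ (1 + 2 ^ s * (2 + s * 2)) * 1 := by omega
    _ ≤ _ := Nat.mul_le_mul_left _ (by omega)

variable {X : ExtSys p q N s k E} {𝒰 : Finset (Fm p (XVar q N E k))} {d G S : ℕ}

section bounds

variable (hcl : SubClosed 𝒰) (hbase : ∀ e i, emb (X.base e i) ∈ 𝒰) (hD : ∀ j, X.D j ∈ 𝒰)
  (hd : ∀ φ ∈ 𝒰, φ.depth ≤ d) (hG : ∀ φ ∈ 𝒰, φ.tops.card ≤ G) (hS : 𝒰.card ≤ S)
include hcl hbase hD hd hG hS

omit hcl hD hG hS in
theorem depth_sgv (b : Fin k → Bool) (x : XVar q N E k) : (sgv X b x).depth ≤ d + 6 := by
  rcases x with v | e | j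
  · simp [sgv, Fm.depth]
  · have h1 : ∀ i, (sg0 b (X.base e i)).depth ≤ d + 2 := by
      intro i
      have h2 : (sg0 b (X.base e i)).depth ≤ (X.base e i).depth + 2 := by
        apply depth_bind
        intro x
        rcases x with v | j
        · simp [Fm.depth]
        · exact depth_cst _
      have h3 := (le_depth_bind _ (X.base e i)).trans (hd _ (hbase e i))
      omega
    have h2 : (sgv X b (.inr (.inl e))).depth ≤ (dnf (p := p) (X.fn e)).depth + (d + 2) :=
      depth_bind h1 _
    have h3 := depth_dnf (p := p) (X.fn e)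
    omega
  · have := depth_cst (p := p) (α := Var q N) (b j)
    have h2 : (sgv X b (.inr (.inr j))).depth = (cst (p := p) (α := Var q N) (b j)).depth := rfl
    omega

omit hcl hbase hD hd hG hS in
theorem mdFree_sgv (b : Fin k → Bool) (x : XVar q N E k) : MdFree (sgv X b x) := by
  rcases x with v | e | j
  · trivial
  · refine mdFree_bind (fun i => ?_) (mdFree_dnf _)
    refine mdFree_bind (fun x => ?_) (X.base_mdFree e i)
    rcases x with v | j
    · trivial
    · exact mdFree_cst _
  · exact mdFree_cst _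

omit hD hd hG in
theorem sub_sgv (b : Fin k → Bool) (x : XVar q N E k) : (sgv X b x).sub.card ≤ MM s S := by
  rcases x with v | e | j
  · have h : (sgv X b (.inl v)).sub.card = 1 := by simp [sgv, Fm.sub]
    have := two_le_MM s S
    omega
  · have h1 : ∀ i, (sg0 b (X.base e i)).sub.card ≤ S * 3 := by
      intro i
      have h2 : (sg0 b (X.base e i)).sub.card ≤ (X.base e i).sub.card * (1 + 2) := by
        apply sub_bind_card
        intro x
        rcases x with v | j
        · simp [Fm.sub]
        · exact sub_cst _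
      refine h2.trans (Nat.mul_le_mul_right _ ?_)
      refine (sub_emb (E := E) _).trans ?_
      exact (card_le_card (hcl _ (hbase e i))).trans hS
    have h2 : (sgv X b (.inr (.inl e))).sub.card ≤
        (dnf (p := p) (X.fn e)).sub.card * (1 + S * 3) := sub_bind_card h1 _
    refine h2.trans ?_
    unfold MM
    exact Nat.mul_le_mul_right _ (sub_dnf _)
  · have h2 : (sgv X b (.inr (.inr j))).sub.card =
      (cst (p := p) (α := Var q N) (b j)).sub.card := rfl
    have h3 := sub_cst (p := p) (α := Var q N) (b j)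
    have := two_le_MM s S
    omega

omit hD hd hG in
theorem card_sg (b : Fin k → Bool) {χ : Fm p (XVar q N E k)} (hχ : χ ∈ 𝒰) :
    (sg X b χ).sub.card ≤ S * (1 + MM s S) := by
  refine (sub_bind_card (sub_sgv hcl hbase hS b) χ).trans ?_
  exact Nat.mul_le_mul_right _ ((card_le_card (hcl _ hχ)).trans hS)

omit hD hS in
/-- the subformulas of the translated formulas -/
theorem sub_sg (b : Fin k → Bool) {χ : Fm p (XVar q N E k)} (hχ : χ ∈ 𝒰) {φ : Fm p (Var q N)}
    (hφ : φ ∈ (sg X b χ).sub) : φ.depth ≤ 2 * d + 6 ∧ φ.tops.card ≤ G := by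
  classical
  obtain ⟨ψ, hψ, h⟩ := mem_biUnion.1 (sub_bind _ _ hφ)
  have hψU : ψ ∈ 𝒰 := hcl _ hχ hψ
  rcases mem_insert.1 h with rfl | h
  · constructor
    · have h1 := depth_bind (depth_sgv (X := X) hbase hd b) ψ
      have h2 := hd _ hψU
      omega
    · exact (tops_bind_card (fun x => tops_of_mdFree (mdFree_sgv b x)) ψ).trans (hG _ hψU)
  · cases ψ with
    | var x =>
      have h' : φ ∈ (sgv X b x).sub := h
      constructor
      · have h1 := depth_sub h'
        have h2 := depth_sgv (X := X) hbase hd b x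
        omega
      · rw [tops_of_mdFree (mdFree_sub h' (mdFree_sgv b x))]
        simp
    | neg φ => simp [varSub] at h
    | or t φs => simp [varSub] at h
    | md i t φs => simp [varSub] at h

omit hS in
theorem sub_Kn (b : Fin k → Bool) {i : ℕ} (hi : i < k) {φ : Fm p (Var q N)}
    (hφ : φ ∈ (Kn X b i).sub) : φ.depth ≤ 2 * d + 7 ∧ φ.tops.card ≤ G := by
  classical
  unfold Kn at hφ
  rw [dif_pos hi] at hφ
  have hself := sub_sg hcl hbase hd hG b (hD ⟨i, hi⟩) (self_mem_sub (sg X b (X.D ⟨i, hi⟩)))
  split_ifs at hφ with hb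
  · rw [Fm.sub, mem_insert] at hφ
    rcases hφ with rfl | hφ
    · constructor
      · simp only [Fm.depth]
        omega
      · exact hself.2
    · have := sub_sg hcl hbase hd hG b (hD ⟨i, hi⟩) hφ
      exact ⟨by omega, this.2⟩
  · have := sub_sg hcl hbase hd hG b (hD ⟨i, hi⟩) hφ
    exact ⟨by omega, this.2⟩

omit hd hG in
theorem card_Kn (b : Fin k → Bool) {i : ℕ} (hi : i < k) :
    (Kn X b i).sub.card ≤ S * (1 + MM s S) + 1 := by
  classical
  unfold Kn
  rw [dif_pos hi]
  have h1 := card_sg (X := X) hcl hbase hS b (hD ⟨i, hi⟩)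
  split_ifs with hb
  · rw [Fm.sub]
    exact (card_insert_le _ _).trans (by omega)
  · omega

omit hS in
theorem sub_CC (b : Fin k → Bool) {m : ℕ} (hm : m ≤ k) {φ : Fm p (Var q N)}
    (hφ : φ ∈ (CC X b m).sub) : φ.depth ≤ 2 * d + 8 ∧ φ.tops.card ≤ (k + 1) * G := by
  classical
  have hGk : G ≤ (k + 1) * G := Nat.le_mul_of_pos_left _ (Nat.succ_pos k)
  unfold CC at hφ
  rw [Fm.sub, mem_insert] at hφ
  rcases hφ with rfl | hφ
  · constructor
    · simp only [Fm.depth]
      have : univ.sup (fun i : Fin m => (Kn X b i).depth) ≤ 2 * d + 7 :=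
        Finset.sup_le fun i _ => (sub_Kn hcl hbase hD hd hG b (i.2.trans_le hm)
          (self_mem_sub _)).1
      omega
    · simp only [Fm.tops]
      refine card_biUnion_le.trans ?_
      refine (Finset.sum_le_card_nsmul _ _ G (fun i _ => (sub_Kn hcl hbase hD hd hG b
        (i.2.trans_le hm) (self_mem_sub _)).2)).trans ?_
      rw [card_univ, Fintype.card_fin, smul_eq_mul]
      exact Nat.mul_le_mul_right _ (by omega)
  · simp only [mem_biUnion, mem_univ, true_and] at hφ
    obtain ⟨i, hi⟩ := hφ
    have := sub_Kn hcl hbase hD hd hG b (i.2.trans_le hm) hi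
    exact ⟨by omega, this.2.trans hGk⟩

omit hd hG in
theorem card_CC (b : Fin k → Bool) {m : ℕ} (hm : m ≤ k) :
    (CC X b m).sub.card ≤ 1 + k * (S * (1 + MM s S) + 1) := by
  classical
  unfold CC
  rw [Fm.sub]
  refine (card_insert_le _ _).trans ?_
  have : (univ.biUnion (fun i : Fin m => (Kn X b i).sub)).card ≤
      k * (S * (1 + MM s S) + 1) := by
    refine card_biUnion_le.trans ?_
    refine (Finset.sum_le_card_nsmul _ _ _ (fun i _ => card_Kn hcl hbase hD hS b
      (i.2.trans_le hm))).trans ?_
    rw [card_univ, Fintype.card_fin, smul_eq_mul]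
    exact Nat.mul_le_mul_right _ hm
  omega

omit hS in
theorem sub_AA (b : Fin k → Bool) {χ : Fm p (XVar q N E k)} (hχ : χ ∈ 𝒰) {φ : Fm p (Var q N)}
    (hφ : φ ∈ (AA' X b χ).sub) : φ.depth ≤ 2 * d + 9 ∧ φ.tops.card ≤ (k + 2) * G := by
  classical
  have h1 : (k + 1) * G ≤ (k + 2) * G := Nat.mul_le_mul_right _ (by omega)
  have h2 : G ≤ (k + 2) * G := Nat.le_mul_of_pos_left _ (Nat.succ_pos _)
  have c1 := sub_CC hcl hbase hD hd hG b (le_refl k) (self_mem_sub (CC X b k))
  have c2 := sub_sg hcl hbase hd hG b hχ (self_mem_sub (sg X b χ))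
  unfold AA' at hφ
  rw [Fm.sub, mem_insert] at hφ
  rcases hφ with rfl | hφ
  · constructor
    · simp only [Fm.depth]
      have : univ.sup (fun i : Fin 2 => ((![CC X b k, sg X b χ] : Fin 2 → Fm p (Var q N))
          i).depth) ≤ 2 * d + 8 := by
        refine Finset.sup_le fun i _ => ?_
        fin_cases i
        · exact c1.1
        · exact c2.1.trans (by omega)
      omega
    · simp only [Fm.tops]
      have : univ.biUnion (fun i : Fin 2 => ((![CC X b k, sg X b χ] : Fin 2 → Fm p (Var q N))
          i).tops) ⊆ (CC X b k).tops ∪ (sg X b χ).tops := by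
        intro x hx
        simp only [mem_biUnion, mem_univ, true_and] at hx
        obtain ⟨i, hi⟩ := hx
        fin_cases i
        · exact mem_union_left _ hi
        · exact mem_union_right _ hi
      refine (card_le_card this).trans ((card_union_le _ _).trans ?_)
      calc (CC X b k).tops.card + (sg X b χ).tops.card ≤ (k + 1) * G + G :=
            Nat.add_le_add c1.2 c2.2
        _ = (k + 2) * G := by ring
  · simp only [mem_biUnion, mem_univ, true_and] at hφ
    obtain ⟨i, hi⟩ := hφ
    fin_cases i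
    · have := sub_CC hcl hbase hD hd hG b (le_refl k) hi
      exact ⟨by omega, this.2.trans h1⟩
    · have := sub_sg hcl hbase hd hG b hχ hi
      exact ⟨by omega, this.2.trans h2⟩

omit hd hG in
theorem card_AA (b : Fin k → Bool) {χ : Fm p (XVar q N E k)} (hχ : χ ∈ 𝒰) :
    (AA' X b χ).sub.card ≤ 2 + k * (S * (1 + MM s S) + 1) + S * (1 + MM s S) := by
  classical
  unfold AA'
  rw [Fm.sub]
  refine (card_insert_le _ _).trans ?_
  have : univ.biUnion (fun i : Fin 2 => ((![CC X b k, sg X b χ] : Fin 2 → Fm p (Var q N))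
      i).sub) ⊆ (CC X b k).sub ∪ (sg X b χ).sub := by
    intro x hx
    simp only [mem_biUnion, mem_univ, true_and] at hx
    obtain ⟨i, hi⟩ := hx
    fin_cases i
    · exact mem_union_left _ hi
    · exact mem_union_right _ hi
  have h1 := (card_le_card this).trans (card_union_le _ _)
  have h2 := card_CC (X := X) hcl hbase hD hS b (le_refl k)
  have h3 := card_sg (X := X) hcl hbase hS b hχ
  omega

omit hS in
theorem allF_ok {φ : Fm p (Var q N)} (hφ : φ ∈ allF X 𝒰) :
    φ.depth ≤ 2 * d + 9 ∧ φ.tops.card ≤ (k + 2) * G := by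
  classical
  unfold allF roots at hφ
  simp only [mem_biUnion, mem_union, mem_image, mem_range, mem_univ, true_and] at hφ
  obtain ⟨b, r, hr, h⟩ := hφ
  rcases hr with ⟨χ, hχ, rfl⟩ | ⟨m, hm, rfl⟩
  · exact sub_AA hcl hbase hD hd hG b hχ h
  · have := sub_CC hcl hbase hD hd hG b (by omega) h
    exact ⟨by omega, this.2.trans (Nat.mul_le_mul_right _ (by omega))⟩

omit hd hG in
theorem allF_card : (allF X 𝒰).card ≤ 2 ^ k * ((S + (k + 1)) *
    (2 + k * (S * (1 + MM s S) + 1) + S * (1 + MM s S))) := by
  classical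
  set B := 2 + k * (S * (1 + MM s S) + 1) + S * (1 + MM s S) with hB
  unfold allF
  refine card_biUnion_le.trans ?_
  refine (Finset.sum_le_card_nsmul _ _ ((S + (k + 1)) * B) (fun b _ => ?_)).trans ?_
  · refine card_biUnion_le.trans ?_
    refine (Finset.sum_le_card_nsmul _ _ B (fun r hr => ?_)).trans ?_
    · unfold roots at hr
      simp only [mem_union, mem_image, mem_range] at hr
      rcases hr with ⟨χ, hχ, rfl⟩ | ⟨m, hm, rfl⟩
      · exact card_AA hcl hbase hD hS b hχ
      · have := card_CC (X := X) hcl hbase hD hS b (m := m) (by omega)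
        omega
    · rw [smul_eq_mul]
      refine Nat.mul_le_mul_right _ ?_
      unfold roots
      refine (card_union_le _ _).trans (Nat.add_le_add (card_image_le.trans hS) ?_)
      exact card_image_le.trans (by rw [card_range])
  · rw [card_univ, Fintype.card_fun, Fintype.card_fin, Fintype.card_bool, smul_eq_mul]

end bounds

end Pool.Agent.J6H27.EF
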