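import Pool.Agent.Helper600R2.Cnt.Defs

/-!
# Extended constant-depth Frege systems: definitions

Formulas `Fm p α` over the variables `α` with negation, unbounded disjunction and `MOD p` gates,
their depth, their subformulas (`sub`), their maximal `MOD` subformulas (`tops`), and the clauses
of the counting principle (`IsAxiom`) are those of `Helper600R2.Cnt.Defs`.

Here extension variables are added. There are

* local extension variables: each of them stands for an arbitrary Boolean function of at most `s`
  formulas,
* `k` further extension variables, which stand for arbitrary formulas.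
-/

set_option autoImplicit false

namespace Pool.Agent.J6H27.EF

open Finset Pool.Agent.Helper600R2.Cnt

variable {p : ℕ} {α : Type}

/-- The truth value of a formula under an assignment. -/
def ev (a : α → Bool) : Fm p α → Bool
  | .var x => a x
  | .neg φ => !(ev a φ)
  | .or _ φs => decide (∃ j, ev a (φs j) = true)
  | .md i _ φs => decide ((∑ j, if ev a (φs j) = true then (1 : ZMod p) else 0) = i)

/-- The formula contains no `MOD` gate. -/
def MdFree : Fm p α → Prop
  | .var _ => True
  | .neg φ => MdFree φ
  | .or _ φs => ∀ j, MdFree (φs j)
  | .md _ _ _ => False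

/-- All variables in the formula have the property `P`. -/
def Uses (P : α → Prop) : Fm p α → Prop
  | .var x => P x
  | .neg φ => Uses P φ
  | .or _ φs => ∀ j, Uses P (φs j)
  | .md _ _ φs => ∀ j, Uses P (φs j)

/-- Substitution of formulas for the variables. -/
def bind {β : Type} (f : α → Fm p β) : Fm p α → Fm p β
  | .var x => f x
  | .neg φ => .neg (bind f φ)
  | .or t φs => .or t (fun j => bind f (φs j))
  | .md i t φs => .md i t (fun j => bind f (φs j))

/-- The set of formulas is closed under subformulas. -/
def SubClosed (𝒰 : Finset (Fm p α)) : Prop := ∀ φ ∈ 𝒰, φ.sub ⊆ 𝒰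

/-- The variables: the variables of the counting principle, the local extension variables, and the
`k` further extension variables. -/
abbrev XVar (q N : ℕ) (E : Type) (k : ℕ) : Type := Var q N ⊕ (E ⊕ Fin k)

/-- The definitions of the extension variables. The local extension variable `e` stands for the
Boolean function `fn e` of the `s` formulas `base e i`. These formulas contain no `MOD` gates, and
they contain only variables of the counting principle and further extension variables with an index
less than `lev e`. The further extension variable `j` stands for the formula `D j`, which contains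
only variables of the counting principle, further extension variables with an index less than `j`,
and local extension variables `e` with `lev e ≤ j`. -/
structure ExtSys (p q N s k : ℕ) (E : Type) where
  base : E → Fin s → Fm p (Var q N ⊕ Fin k)
  fn : E → (Fin s → Bool) → Bool
  lev : E → ℕ
  D : Fin k → Fm p (XVar q N E k)
  base_mdFree : ∀ e i, MdFree (base e i)
  base_lev : ∀ e i, Uses (fun x => ∀ j : Fin k, x = .inr j → (j : ℕ) < lev e) (base e i)
  D_lev : ∀ j : Fin k, Uses (fun x => (∀ e, x = .inr (.inl e) → lev e ≤ j) ∧
    ∀ i : Fin k, x = .inr (.inr i) → i < j) (D j)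

/-- A formula without local extension variables, as a formula over all variables. -/
def emb {q N k : ℕ} {E : Type} : Fm p (Var q N ⊕ Fin k) → Fm p (XVar q N E k) :=
  bind (Sum.elim (fun v => .var (.inl v)) (fun j => .var (.inr (.inr j))))

/-- A formula in the variables of the counting principle, as a formula over all variables. -/
def orig {q N k : ℕ} {E : Type} : Fm p (Var q N) → Fm p (XVar q N E k) :=
  bind (fun v => .var (.inl v))

/-- `φ` is valid for local reasons: it is a Boolean combination `Φ` (without `MOD` gates) of `s`
formulas `F 0, ..., F (s - 1)` and of local extension variables `e` which are functions of these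
formulas, namely of `F (m e 0), ..., F (m e (s - 1))`, and it is valid whatever the truth values
of the formulas `F i` are. For instance, if `e` is an abbreviation for such a Boolean combination
`Ψ`, then `e ∨ ¬ Ψ` and `¬ e ∨ Ψ` are formulas of this kind. -/
def LocalAx {q N s k : ℕ} {E : Type} (X : ExtSys p q N s k E) (𝒰 : Finset (Fm p (XVar q N E k)))
    (φ : Fm p (XVar q N E k)) : Prop :=
  ∃ (F : Fin s → Fm p (Var q N ⊕ Fin k)) (m : E → Fin s → Fin s) (Φ : Fm p (Fin s ⊕ E)),
    (∀ i, emb (F i) ∈ 𝒰) ∧ MdFree Φ ∧
    Uses (fun x => ∀ e, x = .inr e → ∀ i, X.base e i = F (m e i)) Φ ∧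
    (∀ v : Fin s → Bool, ev (Sum.elim v (fun e => X.fn e (fun i => v (m e i)))) Φ = true) ∧
    φ = bind (Sum.elim (fun i => emb (F i)) (fun e => .var (.inr (.inl e)))) Φ

/-- The formulas which can be derived from the clauses of the counting principle modulo `q` with the
extension variables of `X`, if all formulas have to be in `𝒰`:

* `clause`: the clauses of the counting principle,
* `loc`: formulas which are valid for local reasons,
* `def₁`, `def₂`: the extension axioms `w ∨ ¬ D` and `¬ w ∨ D` of a further extension variable `w`
  which stands for `D`,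
* `inf`: `φ` follows from at most `c` derivable formulas by an inference which only depends on the
  meaning of the `MOD` gates and of the outermost connectives of at most `c` formulas of `𝒰`. -/
inductive EDer (c : ℕ) {q N s k : ℕ} {E : Type} (X : ExtSys p q N s k E)
    (𝒰 : Finset (Fm p (XVar q N E k))) : Fm p (XVar q N E k) → Prop
  | clause (ψ : Fm p (Var q N)) : IsAxiom ψ → orig ψ ∈ 𝒰 → EDer c X 𝒰 (orig ψ)
  | loc {φ : Fm p (XVar q N E k)} : φ ∈ 𝒰 → LocalAx X 𝒰 φ → EDer c X 𝒰 φ
  | def₁ (j : Fin k) : .or 2 ![.var (.inr (.inr j)), .neg (X.D j)] ∈ 𝒰 →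
      EDer c X 𝒰 (.or 2 ![.var (.inr (.inr j)), .neg (X.D j)])
  | def₂ (j : Fin k) : .or 2 ![.neg (.var (.inr (.inr j))), X.D j] ∈ 𝒰 →
      EDer c X 𝒰 (.or 2 ![.neg (.var (.inr (.inr j))), X.D j])
  | inf {φ : Fm p (XVar q N E k)} (P Q : Finset (Fm p (XVar q N E k))) :
      φ ∈ 𝒰 → P.card ≤ c → Q.card ≤ c → Q ⊆ 𝒰 → (∀ χ ∈ P, EDer c X 𝒰 χ) →
      (∀ V : Fm p (XVar q N E k) → Bool, RespMod V → (∀ χ ∈ Q, RespAt V χ) →
        (∀ χ ∈ P, V χ = true) → V φ = true) → EDer c X 𝒰 φ

end Pool.Agent.J6H27.EF
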