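import Pool.Agent.J6H27.EF.Core

/-!
# Choice of parameters
-/

set_option linter.unusedSectionVars false
set_option autoImplicit false

namespace Pool.Agent.J6H27.EF

open Finset Pool.Agent.Helper600R2 Pool.Agent.Helper600R2.Cnt

/-- the combinatorial core with explicit parameters -/
theorem der_core (p q : ℕ) (hp : p.Prime) (hq : 2 ≤ q) (hpq : ¬ p ∣ q) (d c : ℕ) :
    ∃ C : ℕ, 0 < C ∧ ∀ N Y s : ℕ, 1 ≤ Y → s ≤ Y →
      (C * (q * Y) ^ (d + 3)) ^ ((2 * (q * q + q) + 4) ^ d) ≤ N →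
      ∀ 𝒰 : Finset (Fm p (Var q N)), ClosedFm 𝒰 →
        (∀ φ ∈ 𝒰, φ.depth ≤ d) → (∀ φ ∈ 𝒰, φ.tops.card + 1 ≤ Y) →
        ∀ f₀, Der c s 𝒰 (.or 0 f₀) →
        16 ^ Y < 𝒰.card * 2 ^ (Y - 1) := by
  classical
  have : Fact p.Prime := ⟨hp⟩
  have : NeZero q := ⟨by omega⟩
  have hp1 : 1 ≤ p := hp.one_le
  set C1 : ℕ := 20 + 4 * p * (2 * p) ^ d + 4 * (2 * p) ^ d with hC1
  set C : ℕ := 240 * q * (2 * (2 * c + 3) * C1 + 1) + q * (d + 3) + 32 with hC
  refine ⟨C, by omega, ?_⟩
  intro N Y s hY hs hN 𝒰 h𝒰 hdepth htops f₀ hder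
  by_contra hcon
  push Not at hcon
  set w : ℕ := 2 * (q * q + q) + 4 with hw
  set k : ℕ := q * Y with hk
  set m : ℕ := C * k ^ (d + 3) with hm
  have hk1 : 1 ≤ k := Nat.mul_pos (by omega) hY
  have hkpow : k ≤ k ^ (d + 3) := Nat.le_self_pow (by omega) k
  have hmk : C * k ≤ m := Nat.mul_le_mul_left C hkpow
  have hmC : C ≤ m := Nat.le_mul_of_pos_right C (Nat.pow_pos hk1)
  have hm32 : 32 ≤ m := by omega
  have hmk' : k ≤ m := by
    refine le_trans ?_ hmk
    exact Nat.le_mul_of_pos_left k (by omega)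
  have hqk : q ≤ k := Nat.le_mul_of_pos_right q hY
  have hmq : q ≤ m := hqk.trans hmk'
  have hm1 : 1 ≤ m := by omega
  -- the sizes
  let Asz : ℕ → ℕ := fun h => if h = 0 then N else m ^ (w ^ (d - h))
  have hAm : ∀ h, 1 ≤ h → m ≤ Asz h := by
    intro h hh
    simp only [Asz, if_neg (show h ≠ 0 by omega)]
    exact Nat.le_self_pow (by positivity) m
  have hAstep : ∀ h < d, Asz (h + 1) ^ w ≤ Asz h := by
    intro h hh
    have e1 : Asz (h + 1) = m ^ (w ^ (d - (h + 1))) := by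
      simp only [Asz, if_neg (show h + 1 ≠ 0 by omega)]
    have e2 : w ^ (d - (h + 1)) * w = w ^ (d - h) := by
      rw [← pow_succ]; congr 1; omega
    rw [e1, ← pow_mul, e2]
    by_cases h0 : h = 0
    · subst h0
      simp only [Asz, if_true, Nat.sub_zero]
      exact hN
    · simp only [Asz, if_neg h0]
      exact le_rfl
  have hmN : m ≤ N := by
    refine le_trans ?_ hN
    exact Nat.le_self_pow (by positivity) m
  have hAN : ∀ h ≤ d, Asz h ≤ N := by
    intro h hh
    by_cases h0 : h = 0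
    · simp only [Asz, h0, if_true]; exact le_rfl
    · simp only [Asz, if_neg h0]
      refine le_trans ?_ hN
      exact Nat.pow_le_pow_right hm1 (Nat.pow_le_pow_right (by omega) (by omega))
  let b : ℕ → ℕ := fun h => (N - Asz h) / q
  have hb0 : b 0 = 0 := by simp [b, Asz]
  have hstep : ∀ h < d, q * b (h + 1) < N ∧ b h ≤ b (h + 1) ∧
      16 * (2 * k * ((N - q * b (h + 1)) ^ q) ^ q * (N - q * b (h + 1)) ^ q) ≤
        b (h + 1) - b h := by
    intro h hh
    have hm' := hAm (h + 1) (by omega)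
    exact num_step (by omega) (hm32.trans hm') (hmq.trans hm') (hmk'.trans hm')
      (hAstep h hh) (hAN h (by omega))
  -- the family
  have hfamcard : (fam (N := N) (fun a : Var q N => a.1) 𝒰).card ≤ 16 ^ Y :=
    (fam_card _ 𝒰 (Y - 1) (fun φ hφ => by have := htops φ hφ; omega)).trans hcon
  obtain ⟨ρ, hρ1, hρ2, hρ3⟩ := levels (q := q) (k := k) (D := Y) (by omega) hY rfl
    (fam (N := N) (fun a : Var q N => a.1) 𝒰) (fam_closed _ h𝒰) hfamcard b hb0 d
    hstep d le_rfl
  have hT : ∀ χ ∈ fam (N := N) (fun a : Var q N => a.1) 𝒰, HasT q k χ ρ k := by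
    intro χ hχ
    apply hρ3 χ hχ
    obtain ⟨φ, hφ, μ, rfl⟩ := exists_of_mem_fam _ hχ
    exact (subst_dep _ μ φ).trans (hdepth φ hφ)
  -- the free part
  have hfree : m ≤ N - q * ρ.card ∧ q * ρ.card ≤ N := by
    rw [hρ2]
    by_cases hd0 : d = 0
    · rw [hd0, hb0]
      simp only [mul_zero, Nat.sub_zero, Nat.zero_le, and_true]
      exact hmN
    · have h1 : Asz d = m := by
        simp only [Asz, if_neg hd0, Nat.sub_self, pow_zero, pow_one]
      have h2 : q * b d ≤ N - m := by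
        simp only [b, h1]
        exact Nat.mul_div_le _ _
      omega
  -- the graph
  set n : ℕ := m / (4 * q) with hn
  have hww : ww k p (Y - 1) d ≤ C1 * k ^ (d + 2) :=
    ww_le hp1 hk1 le_rfl (by
      have : Y ≤ k := Nat.le_mul_of_pos_left Y (by omega)
      omega)
  have hYk : Y ≤ k := Nat.le_mul_of_pos_left Y (by omega)
  have hcs : 2 * c + s + 1 + 1 ≤ (2 * c + 3) * k := by nlinarith
  have hmbig : 240 * q * (2 * (2 * c + s + 1 + 1) * ww k p (Y - 1) d + 1) ≤ m := by
    calc 240 * q * (2 * (2 * c + s + 1 + 1) * ww k p (Y - 1) d + 1)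
        ≤ 240 * q * (2 * ((2 * c + 3) * k) * (C1 * k ^ (d + 2)) + 1 * k ^ (d + 3)) := by
          apply Nat.mul_le_mul_left
          apply Nat.add_le_add
          · exact Nat.mul_le_mul (Nat.mul_le_mul_left 2 hcs) hww
          · rw [one_mul]; exact Nat.one_le_pow _ _ hk1
      _ = (240 * q * (2 * (2 * c + 3) * C1 + 1)) * k ^ (d + 3) := by ring
      _ ≤ C * k ^ (d + 3) := Nat.mul_le_mul_right _ (by omega)
  have hn1 : 60 * (2 * (2 * c + s + 1 + 1) * ww k p (Y - 1) d + 1) ≤ n := by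
    rw [hn, Nat.le_div_iff_mul_le (by omega)]
    refine le_trans (le_of_eq ?_) hmbig
    ring
  have hn25 : 25 ≤ n := by omega
  obtain ⟨π, hπ⟩ := exists_expander hn25
  have h4q : 4 * q * n ≤ m := Nat.mul_div_le m (4 * q)
  -- the field
  have hqK : (q : AlgebraicClosure (ZMod p)) ≠ 0 := by
    intro h
    rw [CharP.cast_eq_zero_iff (AlgebraicClosure (ZMod p)) p q] at h
    exact hpq h
  have : NeZero (q : ZMod p) := ⟨by
    intro h
    rw [CharP.cast_eq_zero_iff (ZMod p) p q] at h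
    exact hpq h⟩
  obtain ⟨ζ, hζ⟩ := HasEnoughRootsOfUnity.exists_primitiveRoot (AlgebraicClosure (ZMod p)) q
  have hprim := AddChar.zmodChar_primitive_of_primitive_root q hζ
  refine no_der (Vt := Fin n) (E := Fin n × Bool) (ghd π) gtl _ hprim hqK
    (by rw [Fintype.card_fin]; omega) (inc_card π) c d k (Y - 1) s hk1 (graph_conn π)
    (graph_exp π hπ ?_) ρ hρ1 ?_ 𝒰 h𝒰 hdepth ?_ ?_ hT f₀ hder
  · have h1 : 60 * (2 * ((2 * c + s + 1 + 1) * ww k p (Y - 1) d)) ≤ n := by
      refine le_trans ?_ hn1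
      apply Nat.mul_le_mul_left
      rw [← mul_assoc]
      exact Nat.le_succ _
    rw [Nat.le_div_iff_mul_le (by norm_num)]
    omega
  · have h1 : Fintype.card (Fin n × Bool) * (2 * (q - 1)) ≤ 4 * q * n := by
      rw [Fintype.card_prod, Fintype.card_fin, Fintype.card_bool]
      calc n * 2 * (2 * (q - 1)) = (q - 1) * (4 * n) := by ring
        _ ≤ q * (4 * n) := Nat.mul_le_mul_right _ (Nat.sub_le q 1)
        _ = 4 * q * n := by ring
    omega
  · intro φ hφ
    have := htops φ hφ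
    omega
  · have h1 : q * ((s + 2) * k + k * d) ≤ m := by
      have h3 : (s + 2) * k + k * d ≤ (d + 3) * (k * k) := by
        have h4 : s + 2 ≤ 3 * k := by omega
        have h5 : (s + 2) * k ≤ 3 * k * k := Nat.mul_le_mul_right k h4
        have h6 : k * d ≤ k * k * d := Nat.mul_le_mul_right d (Nat.le_mul_of_pos_left k hk1)
        calc (s + 2) * k + k * d ≤ 3 * k * k + k * k * d := Nat.add_le_add h5 h6
          _ = (d + 3) * (k * k) := by ring
      have h7 : k * k ≤ k ^ (d + 3) := by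
        calc k * k = k ^ 2 := by ring
          _ ≤ k ^ (d + 3) := Nat.pow_le_pow_right hk1 (by omega)
      calc q * ((s + 2) * k + k * d) ≤ q * ((d + 3) * (k ^ (d + 3))) :=
            Nat.mul_le_mul_left q (h3.trans (Nat.mul_le_mul_left _ h7))
        _ = q * (d + 3) * k ^ (d + 3) := by ring
        _ ≤ C * k ^ (d + 3) := Nat.mul_le_mul_right _ (by omega)
    have h2 : q * (ρ.card + (s + 2) * k + k * d) = q * ρ.card + q * ((s + 2) * k + k * d) := by
      ring
    rw [h2]
    omega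

end Pool.Agent.J6H27.EF
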