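import Pool.Agent.J6H27.EF.Count
import Pool.Agent.J6H27.EF.Num

/-!
# The lower bound
-/

set_option autoImplicit false

namespace Pool.Agent.J6H27.EF

open Finset Filter Pool.Agent.Helper600R2.Cnt

theorem num_bound {y s k : ℕ} (hy : 1 ≤ y) (hs : s ≤ y) (hk : k ≤ y) :
    2 ^ k * ((2 ^ y + (k + 1)) * (2 + k * (2 ^ y * (1 + MM s (2 ^ y)) + 1) +
      2 ^ y * (1 + MM s (2 ^ y)))) ≤ 2 ^ (16 * y) := by
  have h0 : y + 1 ≤ 2 ^ y := Nat.lt_two_pow_self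
  have hS1 : 1 ≤ 2 ^ y := Nat.one_le_two_pow
  have h2s : 2 ^ s ≤ 2 ^ y := Nat.pow_le_pow_right (by norm_num) hs
  have h1 : 1 + 2 ^ s * (2 + s * 2) ≤ 4 * (2 ^ y * 2 ^ y) := by
    have e1 : 2 + s * 2 ≤ 2 * 2 ^ y := by omega
    have e2 : 2 ^ s * (2 + s * 2) ≤ 2 ^ y * (2 * 2 ^ y) := Nat.mul_le_mul h2s e1
    nlinarith
  have h2 : 1 + 2 ^ y * 3 ≤ 4 * 2 ^ y := by omega
  have h3 : MM s (2 ^ y) ≤ 16 * (2 ^ y * 2 ^ y * 2 ^ y) := by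
    unfold MM
    calc (1 + 2 ^ s * (2 + s * 2)) * (1 + 2 ^ y * 3) ≤ (4 * (2 ^ y * 2 ^ y)) * (4 * 2 ^ y) :=
          Nat.mul_le_mul h1 h2
      _ = _ := by ring
  set z := 2 ^ y with hz
  have hz3 : 1 ≤ z * z * z := Nat.mul_pos (Nat.mul_pos hS1 hS1) hS1
  have h4 : z * (1 + MM s z) ≤ 17 * (z * z * z * z) := by
    calc z * (1 + MM s z) ≤ z * (z * z * z + 16 * (z * z * z)) :=
          Nat.mul_le_mul_left z (Nat.add_le_add hz3 h3)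
      _ = 17 * (z * z * z * z) := by ring
  have hz4 : 1 ≤ z * z * z * z := Nat.mul_pos hz3 hS1
  have h5 : k * (z * (1 + MM s z) + 1) ≤ 18 * (z * z * z * z * z) := by
    have hkz : k ≤ z := by omega
    calc k * (z * (1 + MM s z) + 1) ≤ z * (17 * (z * z * z * z) + z * z * z * z) :=
          Nat.mul_le_mul hkz (Nat.add_le_add h4 hz4)
      _ = _ := by ring
  have hz5 : z * z * z * z ≤ z * z * z * z * z := Nat.le_mul_of_pos_right _ hS1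
  have h6 : 2 + k * (z * (1 + MM s z) + 1) + z * (1 + MM s z) ≤ 37 * (z * z * z * z * z) := by
    omega
  have h7 : z + (k + 1) ≤ 2 * z := by omega
  have h8 : 2 ^ k ≤ z := Nat.pow_le_pow_right (by norm_num) hk
  have h9 : 74 ≤ z ^ 9 := by
    calc 74 ≤ 2 ^ 9 := by norm_num
      _ ≤ z ^ 9 := Nat.pow_le_pow_left (by
        calc 2 = 2 ^ 1 := rfl
          _ ≤ 2 ^ y := Nat.pow_le_pow_right (by norm_num) hy) 9
  calc 2 ^ k * ((z + (k + 1)) * (2 + k * (z * (1 + MM s z) + 1) + z * (1 + MM s z)))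
      ≤ z * ((2 * z) * (37 * (z * z * z * z * z))) :=
        Nat.mul_le_mul h8 (Nat.mul_le_mul h7 h6)
    _ = 74 * z ^ 7 := by ring
    _ ≤ z ^ 9 * z ^ 7 := Nat.mul_le_mul_right _ h9
    _ = 2 ^ (16 * y) := by rw [hz, ← pow_mul, ← pow_mul, ← pow_add]; congr 1; ring

theorem final_nat {y Y a : ℕ} (hY : Y = 6 * (y + 1) ^ 2) (h2 : a ≤ 2 ^ (16 * y)) :
    a * 2 ^ (Y - 1) ≤ 16 ^ Y := by
  have h3 : 16 * y ≤ 3 * Y := by nlinarith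
  calc a * 2 ^ (Y - 1) ≤ 2 ^ (16 * y) * 2 ^ (Y - 1) := Nat.mul_le_mul_right _ h2
    _ = 2 ^ (16 * y + (Y - 1)) := by rw [← pow_add]
    _ ≤ 2 ^ (4 * Y) := Nat.pow_le_pow_right (by norm_num) (by omega)
    _ = 16 ^ Y := by rw [pow_mul]; norm_num

theorem final_real {C q e W N Y : ℕ} {x δ : ℝ} (he1 : (1 : ℝ) ≤ e) (hW1 : (1 : ℝ) ≤ W)
    (hδ : δ = 1 / (4 * e * W)) (hN0 : (1 : ℝ) ≤ N)
    (hN1 : ((C : ℝ) * (54 * q) ^ e) ^ W ≤ (N : ℝ) ^ ((1 : ℝ) / 2))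
    (hx : x = (N : ℝ) ^ δ) (hY2 : (Y : ℝ) ≤ 54 * (x * x)) :
    (C * (q * Y) ^ e) ^ W ≤ N := by
  have hN0' : (0 : ℝ) ≤ N := by linarith
  have h4 : (((C * (q * Y) ^ e) ^ W : ℕ) : ℝ) ≤ N := by
    push_cast
    have h5 : (q : ℝ) * Y ≤ (54 * q) * (x * x) := by
      have : (0 : ℝ) ≤ q := Nat.cast_nonneg q
      nlinarith
    calc ((C : ℝ) * ((q : ℝ) * Y) ^ e) ^ W ≤ ((C : ℝ) * ((54 * q) * (x * x)) ^ e) ^ W := by
          gcongr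
      _ = ((C : ℝ) * (54 * q) ^ e) ^ W * ((x * x) ^ e) ^ W := by
          rw [mul_pow (54 * (q : ℝ)) (x * x) e, ← mul_assoc, mul_pow _ ((x * x) ^ e) W]
      _ ≤ (N : ℝ) ^ ((1 : ℝ) / 2) * ((x * x) ^ e) ^ W := by
          exact mul_le_mul_of_nonneg_right hN1 (pow_nonneg (pow_nonneg (mul_self_nonneg x) _) _)
      _ = (N : ℝ) ^ ((1 : ℝ) / 2) * (N : ℝ) ^ ((1 : ℝ) / 2) := by
          congr 1
          rw [hx, ← Real.rpow_add (by linarith), ← Real.rpow_natCast, ← Real.rpow_natCast,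
            ← Real.rpow_mul hN0', ← Real.rpow_mul hN0']
          congr 1
          rw [hδ]
          have h6 : (e : ℝ) ≠ 0 := by linarith
          have h7 : (W : ℝ) ≠ 0 := by linarith
          field_simp
          ring
      _ = N := by
          rw [← Real.rpow_add (by linarith)]
          norm_num
  exact_mod_cast h4

theorem final_Y {x : ℝ} {y Y : ℕ} (hx1 : 1 ≤ x) (hyx2 : (y : ℝ) ≤ x + 1)
    (hY : Y = 6 * (y + 1) ^ 2) : (Y : ℝ) ≤ 54 * (x * x) := by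
  have h1 : ((y : ℝ) + 1) ≤ 3 * x := by linarith
  have h2 : (0 : ℝ) ≤ (y : ℝ) + 1 := by positivity
  have h3 : (Y : ℝ) = 6 * ((y : ℝ) + 1) ^ 2 := by rw [hY]; push_cast; ring
  rw [h3]
  nlinarith

theorem final_tops {k y Y t : ℕ} (hky : k ≤ y) (hY : Y = 6 * (y + 1) ^ 2)
    (h1 : t ≤ (k + 2) * y) : t + 1 ≤ Y := by
  have h2 : (k + 2) * y ≤ (y + 2) * y := Nat.mul_le_mul_right _ (by omega)
  nlinarith

/-- **The lower bound.** -/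
theorem lower (p q : ℕ) (hp : p.Prime) (hq : 2 ≤ q) (hpq : ¬ p ∣ q) (d c : ℕ) :
    ∃ δ : ℝ, 0 < δ ∧ ∀ᶠ N : ℕ in atTop, ∀ (s k : ℕ) (E : Type) (X : ExtSys p q N s k E)
      (𝒰 : Finset (Fm p (XVar q N E k))), SubClosed 𝒰 → (∀ e i, emb (X.base e i) ∈ 𝒰) →
      (∀ j, X.D j ∈ 𝒰) → (∀ φ ∈ 𝒰, φ.depth ≤ d) →
      (∀ φ ∈ 𝒰, (φ.tops.card : ℝ) ≤ (N : ℝ) ^ δ) → (s : ℝ) ≤ (N : ℝ) ^ δ →
      (k : ℝ) ≤ (N : ℝ) ^ δ → (𝒰.card : ℝ) ≤ (2 : ℝ) ^ ((N : ℝ) ^ δ) →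
      ∀ f, ¬ EDer c X 𝒰 (.or 0 f) := by
  obtain ⟨C, hC, hcore⟩ := der_core p q hp hq hpq (2 * d + 9) (2 * c + 4)
  obtain ⟨e, he⟩ : ∃ e : ℕ, e = 2 * d + 9 + 3 := ⟨_, rfl⟩
  obtain ⟨W, hW⟩ : ∃ W : ℕ, W = (2 * (q * q + q) + 4) ^ (2 * d + 9) := ⟨_, rfl⟩
  rw [← he, ← hW] at hcore
  have hW1 : 1 ≤ W := by rw [hW]; exact Nat.one_le_pow _ _ (by omega)
  have he1 : 1 ≤ e := by omega
  clear hW
  have hW1r : (1 : ℝ) ≤ W := by exact_mod_cast hW1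
  have he1r : (1 : ℝ) ≤ e := by exact_mod_cast he1
  obtain ⟨δ, hδ⟩ : ∃ δ : ℝ, δ = 1 / (4 * e * W) := ⟨_, rfl⟩
  have hδ0 : 0 < δ := by rw [hδ]; positivity
  refine ⟨δ, hδ0, ?_⟩
  have hlim : Tendsto (fun n : ℕ => (n : ℝ) ^ ((1 : ℝ) / 2)) atTop atTop :=
    (tendsto_rpow_atTop (by norm_num)).comp tendsto_natCast_atTop_atTop
  filter_upwards [hlim.eventually_ge_atTop (((C : ℝ) * (54 * q) ^ e) ^ W),
    eventually_ge_atTop 1] with N hN1 hN2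
  intro s k E X 𝒰 hcl hbase hD hd hG hs hk hU f hder
  have hN0 : (1 : ℝ) ≤ N := by exact_mod_cast hN2
  obtain ⟨x, hx⟩ : ∃ x : ℝ, x = (N : ℝ) ^ δ := ⟨_, rfl⟩
  rw [← hx] at hs hk hU
  have hG' : ∀ φ ∈ 𝒰, (φ.tops.card : ℝ) ≤ x := fun φ hφ => by rw [hx]; exact hG φ hφ
  have hx1 : 1 ≤ x := by rw [hx]; exact Real.one_le_rpow hN0 hδ0.le
  obtain ⟨y, hy⟩ : ∃ y : ℕ, y = ⌊x⌋₊ + 1 := ⟨_, rfl⟩
  have hy1 : 1 ≤ y := by rw [hy]; exact Nat.succ_le_succ (Nat.zero_le _)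
  have hyx : x ≤ y := by
    rw [hy]
    push_cast
    exact (Nat.lt_floor_add_one x).le
  have hyx2 : (y : ℝ) ≤ x + 1 := by
    rw [hy]
    push_cast
    have := Nat.floor_le (show 0 ≤ x by linarith)
    linarith
  have hsy : s ≤ y := by exact_mod_cast hs.trans hyx
  have hky : k ≤ y := by exact_mod_cast hk.trans hyx
  have hGy : ∀ φ ∈ 𝒰, φ.tops.card ≤ y := fun φ hφ => by exact_mod_cast (hG' φ hφ).trans hyx
  have hUy : 𝒰.card ≤ 2 ^ y := by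
    have h1 : (𝒰.card : ℝ) ≤ (2 : ℝ) ^ (y : ℝ) :=
      hU.trans (Real.rpow_le_rpow_of_exponent_le (by norm_num) hyx)
    rw [Real.rpow_natCast] at h1
    exact_mod_cast h1
  obtain ⟨Y, hY⟩ : ∃ Y : ℕ, Y = 6 * (y + 1) ^ 2 := ⟨_, rfl⟩
  have hY1 : 1 ≤ Y := by rw [hY]; exact Nat.mul_pos (by norm_num) (Nat.pow_pos (Nat.succ_pos y))
  have hsY : s ≤ Y := by
    have h1 : y ≤ 6 * (y + 1) ^ 2 := by nlinarith
    rw [hY]
    exact hsy.trans h1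
  obtain ⟨f', hf'⟩ := der_false hder
  have hbnd : (C * (q * Y) ^ e) ^ W ≤ N :=
    final_real he1r hW1r hδ hN0 hN1 hx (final_Y hx1 hyx2 hY)
  have hlt := hcore N Y s hY1 hsY hbnd (allF X 𝒰) allF_closed
    (fun φ hφ => (allF_ok hcl hbase hD hd hGy hφ).1)
    (fun φ hφ => final_tops hky hY (allF_ok hcl hbase hD hd hGy hφ).2) f' hf'
  have h1 := allF_card (X := X) hcl hbase hD hUy
  have h2 := h1.trans (num_bound hy1 hsy hky)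
  exact absurd (final_nat hY h2) (not_le.2 hlt)

end Pool.Agent.J6H27.EF
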