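import Pool.Agent.J6H27.EF.Bind

/-!
# Removing the extension variables
-/

set_option autoImplicit false

namespace Pool.Agent.J6H27.EF

open Finset Pool.Agent.Helper600R2.Cnt

theorem respAt_or {p : ℕ} {α : Type} {V : Fm p α → Bool} {t : ℕ} {φs : Fin t → Fm p α}
    (h : RespAt V (.or t φs)) : V (.or t φs) = true ↔ ∃ j, V (φs j) = true := h

theorem respAt_neg {p : ℕ} {α : Type} {V : Fm p α → Bool} {φ : Fm p α}
    (h : RespAt V (.neg φ)) : V (.neg φ) = !(V φ) := h

variable {p q N s k : ℕ} {E : Type} (X : ExtSys p q N s k E)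

/-- the substitution for formulas without local extension variables -/
noncomputable def sg0 (β : Fin k → Bool) : Fm p (Var q N ⊕ Fin k) → Fm p (Var q N) :=
  bind (Sum.elim .var (fun j => cst (β j)))

/-- the formulas which are substituted for the variables -/
noncomputable def sgv (β : Fin k → Bool) : XVar q N E k → Fm p (Var q N) :=
  Sum.elim .var (Sum.elim (fun e => bind (fun i => sg0 β (X.base e i)) (dnf (X.fn e)))
    (fun j => cst (β j)))

/-- the substitution -/
noncomputable def sg (β : Fin k → Bool) : Fm p (XVar q N E k) → Fm p (Var q N) := bind (sgv X β)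

theorem sg_emb (β : Fin k → Bool) (φ : Fm p (Var q N ⊕ Fin k)) :
    sg X β (emb φ) = sg0 β φ := by
  unfold sg emb sg0
  rw [bind_bind]
  congr 1
  funext x
  rcases x with v | j <;> rfl

theorem sg_orig (β : Fin k → Bool) (φ : Fm p (Var q N)) :
    sg X β (orig φ) = φ := by
  unfold sg orig
  rw [bind_bind]
  exact bind_var φ

theorem sg0_congr {β β' : Fin k → Bool} {φ : Fm p (Var q N ⊕ Fin k)} {m : ℕ}
    (h : Uses (fun x => ∀ j : Fin k, x = .inr j → (j : ℕ) < m) φ)
    (hβ : ∀ j : Fin k, (j : ℕ) < m → β j = β' j) : sg0 β φ = sg0 β' φ := by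
  unfold sg0
  apply bind_congr
  refine Uses.mono ?_ φ h
  intro x hx
  rcases x with v | j
  · rfl
  · simp only [Sum.elim_inr]
    rw [hβ j (hx j rfl)]

/-- the translated definition of a further variable only depends on the values of the earlier
ones -/
theorem sg_D_congr {β β' : Fin k → Bool} (j : Fin k)
    (hβ : ∀ i : Fin k, i < j → β i = β' i) : sg X β (X.D j) = sg X β' (X.D j) := by
  unfold sg
  apply bind_congr
  refine Uses.mono ?_ _ (X.D_lev j)
  rintro x ⟨h1, h2⟩
  rcases x with v | e | i
  · rfl
  · simp only [sgv, Sum.elim_inr, Sum.elim_inl]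
    congr 1
    funext i
    refine sg0_congr (X.base_lev e i) (fun i' hi' => hβ i' ?_)
    exact Fin.lt_def.2 (hi'.trans_le (h1 e rfl))
  · simp only [sgv, Sum.elim_inr]
    rw [hβ i (h2 i rfl)]

/-- the statement that the value of the variable `i` is not the right one -/
noncomputable def Kn (β : Fin k → Bool) (i : ℕ) : Fm p (Var q N) :=
  if h : i < k then (if β ⟨i, h⟩ then .neg (sg X β (X.D ⟨i, h⟩)) else sg X β (X.D ⟨i, h⟩))
  else cst false

/-- one of the first `m` values is not the right one -/
noncomputable def CC (β : Fin k → Bool) (m : ℕ) : Fm p (Var q N) := .or m (fun i => Kn X β i)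

/-- `χ` is true unless one of the values is not the right one -/
noncomputable def AA' (β : Fin k → Bool) (χ : Fm p (XVar q N E k)) : Fm p (Var q N) :=
  .or 2 ![CC X β k, sg X β χ]

open Classical in
/-- the formulas which are used -/
noncomputable def roots (𝒰 : Finset (Fm p (XVar q N E k))) (β : Fin k → Bool) :
    Finset (Fm p (Var q N)) :=
  𝒰.image (AA' X β) ∪ (range (k + 1)).image (CC X β)

open Classical in
/-- the formulas which are used and their subformulas -/
noncomputable def allF (𝒰 : Finset (Fm p (XVar q N E k))) : Finset (Fm p (Var q N)) :=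
  univ.biUnion fun β : Fin k → Bool => (roots X 𝒰 β).biUnion Fm.sub

theorem closed_of_sub {α : Type} {𝒰 : Finset (Fm p α)} (h : ∀ φ ∈ 𝒰, φ.sub ⊆ 𝒰) :
    ClosedFm 𝒰 := by
  classical
  refine ⟨?_, ?_, ?_⟩
  · intro φ hφ
    apply h _ hφ
    rw [Fm.sub, mem_insert]
    exact Or.inr (self_mem_sub φ)
  · intro t φs hφ j
    apply h _ hφ
    simp only [Fm.sub, mem_insert, mem_biUnion, mem_univ, true_and]
    exact Or.inr ⟨j, self_mem_sub _⟩
  · intro i t φs hφ j
    apply h _ hφ
    simp only [Fm.sub, mem_insert, mem_biUnion, mem_univ, true_and]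
    exact Or.inr ⟨j, self_mem_sub _⟩

theorem sub_trans {α : Type} {φ ψ : Fm p α} (h : ψ ∈ φ.sub) : ψ.sub ⊆ φ.sub := by
  classical
  induction φ with
  | var x =>
    simp only [Fm.sub, mem_singleton] at h
    rw [h]
  | neg φ ih =>
    simp only [Fm.sub, mem_insert] at h
    rcases h with rfl | h
    · exact subset_rfl
    · simp only [Fm.sub]
      exact (ih h).trans (subset_insert _ _)
  | or t φs ih =>
    simp only [Fm.sub, mem_insert, mem_biUnion, mem_univ, true_and] at h
    rcases h with rfl | ⟨j, h⟩
    · exact subset_rfl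
    · simp only [Fm.sub]
      exact (ih j h).trans ((subset_biUnion_of_mem (fun j => (φs j).sub) (mem_univ j)).trans
        (subset_insert _ _))
  | md i t φs ih =>
    simp only [Fm.sub, mem_insert, mem_biUnion, mem_univ, true_and] at h
    rcases h with rfl | ⟨j, h⟩
    · exact subset_rfl
    · simp only [Fm.sub]
      exact (ih j h).trans ((subset_biUnion_of_mem (fun j => (φs j).sub) (mem_univ j)).trans
        (subset_insert _ _))

variable {X} {𝒰 : Finset (Fm p (XVar q N E k))}

theorem mem_allF {β : Fin k → Bool} {r φ : Fm p (Var q N)} (hr : r ∈ roots X 𝒰 β)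
    (h : φ ∈ r.sub) : φ ∈ allF X 𝒰 := by
  classical
  unfold allF
  rw [mem_biUnion]
  exact ⟨β, mem_univ _, mem_biUnion.2 ⟨r, hr, h⟩⟩

theorem allF_closed : ClosedFm (allF X 𝒰) := by
  classical
  apply closed_of_sub
  intro φ hφ χ hχ
  unfold allF at hφ
  simp only [mem_biUnion] at hφ
  obtain ⟨β, _, r, hr, h⟩ := hφ
  exact mem_allF hr (sub_trans h hχ)

theorem roots_A {β : Fin k → Bool} {χ : Fm p (XVar q N E k)} (h : χ ∈ 𝒰) :
    AA' X β χ ∈ roots X 𝒰 β := by
  classical
  unfold roots
  rw [mem_union]
  exact Or.inl (mem_image_of_mem _ h)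

theorem roots_C {β : Fin k → Bool} {m : ℕ} (h : m ≤ k) : CC X β m ∈ roots X 𝒰 β := by
  classical
  unfold roots
  rw [mem_union]
  exact Or.inr (mem_image_of_mem _ (mem_range.2 (by omega)))

theorem mem_A {β : Fin k → Bool} {χ : Fm p (XVar q N E k)} (h : χ ∈ 𝒰) :
    AA' X β χ ∈ allF X 𝒰 := mem_allF (roots_A h) (self_mem_sub _)

theorem mem_C {β : Fin k → Bool} {m : ℕ} (h : m ≤ k) : CC X β m ∈ allF X 𝒰 :=
  mem_allF (roots_C h) (self_mem_sub _)

theorem mem_sg {β : Fin k → Bool} {χ : Fm p (XVar q N E k)} (h : χ ∈ 𝒰) :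
    sg X β χ ∈ allF X 𝒰 := by
  have := allF_closed.or _ _ (mem_A (X := X) (β := β) h) 1
  exact this

theorem mem_sg_sub {β : Fin k → Bool} {χ ψ : Fm p (XVar q N E k)} (h : χ ∈ 𝒰)
    (hψ : ψ ∈ χ.sub) : sg X β ψ ∈ allF X 𝒰 := by
  classical
  refine mem_allF (roots_A (X := X) (β := β) h) ?_
  have h1 : sg X β χ ∈ (AA' X β χ).sub := by
    unfold AA'
    simp only [Fm.sub, mem_insert, mem_biUnion, mem_univ, true_and]
    exact Or.inr ⟨1, self_mem_sub _⟩
  exact sub_trans h1 (mem_sub_bind _ hψ)

theorem mem_Kn {β : Fin k → Bool} {i : ℕ} (hi : i < k) : Kn X β i ∈ allF X 𝒰 := by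
  have := allF_closed.or _ _ (mem_C (X := X) (𝒰 := 𝒰) (β := β) (le_refl k)) ⟨i, hi⟩
  exact this

/-- V respects the line `A` -/
theorem A_of_C {V : Fm p (Var q N) → Bool} {β : Fin k → Bool} {χ : Fm p (XVar q N E k)}
    (h : RespAt V (AA' X β χ)) (hC : V (CC X β k) = true) : V (AA' X β χ) = true := by
  unfold AA' at h ⊢
  rw [respAt_or h]
  exact ⟨0, hC⟩

theorem A_of_sg {V : Fm p (Var q N) → Bool} {β : Fin k → Bool} {χ : Fm p (XVar q N E k)}
    (h : RespAt V (AA' X β χ)) (hC : V (sg X β χ) = true) : V (AA' X β χ) = true := by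
  unfold AA' at h ⊢
  rw [respAt_or h]
  exact ⟨1, hC⟩

theorem of_A {V : Fm p (Var q N) → Bool} {β : Fin k → Bool} {χ : Fm p (XVar q N E k)}
    (h : RespAt V (AA' X β χ)) (hA : V (AA' X β χ) = true) :
    V (CC X β k) = true ∨ V (sg X β χ) = true := by
  unfold AA' at h hA
  rw [respAt_or h] at hA
  obtain ⟨j, hj⟩ := hA
  exact (Fin.exists_fin_two (p := fun j => V (![CC X β k, sg X β χ] j) = true)).1 ⟨j, hj⟩

theorem C_of_Kn {V : Fm p (Var q N) → Bool} {β : Fin k → Bool} {m i : ℕ} (hi : i < m)
    (h : RespAt V (CC X β m)) (hK : V (Kn X β i) = true) : V (CC X β m) = true := by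
  unfold CC at h ⊢
  rw [respAt_or h]
  exact ⟨⟨i, hi⟩, hK⟩

theorem of_C {V : Fm p (Var q N) → Bool} {β : Fin k → Bool} {m : ℕ}
    (h : RespAt V (CC X β m)) (hC : V (CC X β m) = true) : ∃ i < m, V (Kn X β i) = true := by
  unfold CC at h hC
  rw [respAt_or h] at hC
  obtain ⟨j, hj⟩ := hC
  exact ⟨j, j.2, hj⟩

/-- weakening -/
theorem der_weak {c' : ℕ} (hc' : 1 ≤ c') {β : Fin k → Bool} {χ : Fm p (XVar q N E k)}
    (hχ : χ ∈ 𝒰) (h : Der c' s (allF X 𝒰) (sg X β χ)) :
    Der c' s (allF X 𝒰) (AA' X β χ) := by
  classical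
  refine Der.inf {sg X β χ} {AA' X β χ} (mem_A hχ) (by simpa using hc') (by simpa using hc') ?_ ?_ ?_
  · intro x hx
    rw [mem_singleton] at hx
    subst hx
    exact mem_A hχ
  · intro x hx
    rw [mem_singleton] at hx
    subst hx
    exact h
  · intro V _ hQ hP
    exact A_of_sg (hQ _ (mem_singleton_self _)) (hP _ (mem_singleton_self _))

theorem sg_or_two (β : Fin k → Bool) (a b : Fm p (XVar q N E k)) :
    sg X β (.or 2 ![a, b]) = .or 2 ![sg X β a, sg X β b] := by
  unfold sg
  simp only [bind]
  congr 1
  funext j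
  fin_cases j <;> rfl

theorem V_empty {V : Fm p (Var q N) → Bool} {f : Fin 0 → Fm p (Var q N)}
    (h : RespAt V (.or 0 f)) : V (.or 0 f) = false := by
  rw [Bool.eq_false_iff, Ne, respAt_or h]
  rintro ⟨j, _⟩
  exact j.elim0

/-- the translation of a derivation -/
theorem translate {c : ℕ} {φ : Fm p (XVar q N E k)} (h : EDer c X 𝒰 φ) :
    ∀ β : Fin k → Bool, Der (2 * c + 4) s (allF X 𝒰) (AA' X β φ) := by
  classical
  induction h with
  | clause ψ hψ hmem =>
    intro β
    apply der_weak (by omega) hmem
    have h1 := mem_sg (X := X) (β := β) hmem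
    rw [sg_orig] at h1 ⊢
    exact Der.ax h1 hψ
  | @loc φ hmem hloc =>
    intro β
    apply der_weak (by omega) hmem
    refine Der.taut (mem_sg hmem) ?_
    obtain ⟨F, m, Φ, hF, hmf, huse, hval, rfl⟩ := hloc
    refine ⟨fun i => sg0 β (F i), bind (Sum.elim .var
      (fun e => bind (fun i => .var (m e i)) (dnf (X.fn e)))) Φ, ?_, ?_, ?_, ?_⟩
    · intro i
      have := mem_sg (X := X) (β := β) (hF i)
      rw [sg_emb] at this
      exact this
    · apply mdFree_bind _ hmf
      intro x
      rcases x with i | e
      · trivial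
      · exact mdFree_bind (f := fun i => (.var (m e i) : Fm p (Fin s))) (fun _ => trivial)
          (mdFree_dnf _)
    · intro v
      rw [ev_bind]
      have : (fun x => ev v ((Sum.elim (fun i => (.var i : Fm p (Fin s)))
          (fun e => bind (fun i => (.var (m e i) : Fm p (Fin s))) (dnf (X.fn e)))) x)) =
          Sum.elim v (fun e => X.fn e (fun i => v (m e i))) := by
        funext x
        rcases x with i | e
        · rfl
        · simp only [Sum.elim_inr]
          rw [ev_bind, ev_dnf]
          rfl
      rw [this]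
      exact hval v
    · unfold sg
      rw [bind_bind, bind_bind]
      apply bind_congr
      refine Uses.mono ?_ _ huse
      intro x hx
      rcases x with i | e
      · exact sg_emb X β (F i)
      · simp only [Sum.elim_inr, bind, sgv, Sum.elim_inl]
        rw [bind_bind]
        congr 1
        funext i
        simp only [bind]
        rw [hx e rfl i]
  | def₁ j hmem =>
    intro β
    have hsg := sg_or_two (X := X) β (.var (.inr (.inr j))) (.neg (X.D j))
    have hmA := mem_A (X := X) (β := β) hmem
    have hmS := mem_sg (X := X) (β := β) hmem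
    rw [hsg] at hmS
    set A := AA' X β (.or 2 ![.var (.inr (.inr j)), .neg (X.D j)]) with hA
    have h0 : sg X β (.var (.inr (.inr j))) = cst (β j) := rfl
    have h1 : sg X β (.neg (X.D j)) = .neg (sg X β (X.D j)) := rfl
    cases hb : β j with
    | true =>
      have hm1 := allF_closed.or _ _ hmS 0
      have hm1' : (.neg (.or 0 (fun j => j.elim0)) : Fm p (Var q N)) ∈ allF X 𝒰 := by
        have e1 : (![sg X β (.var (.inr (.inr j))), sg X β (.neg (X.D j))] :
          Fin 2 → Fm p (Var q N)) 0 = cst true := by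
          rw [← hb]; rfl
        rw [e1] at hm1
        exact hm1
      have hm2 := allF_closed.neg _ hm1'
      refine Der.inf ∅ {A, sg X β (.or 2 ![.var (.inr (.inr j)), .neg (X.D j)]),
        .neg (.or 0 (fun j => j.elim0)), .or 0 (fun j => j.elim0)} hmA (by simp)
        (card_le_four.trans (by omega)) ?_ (by simp) ?_
      · intro x hx
        simp only [mem_insert, mem_singleton] at hx
        rcases hx with rfl | rfl | rfl | rfl
        · exact hmA
        · exact mem_sg hmem
        · exact hm1'
        · exact hm2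
      · intro V _ hQ _
        have r1 := hQ A (by simp)
        have r2 := hQ (sg X β (.or 2 ![.var (.inr (.inr j)), .neg (X.D j)])) (by simp)
        have r3 := hQ (.neg (.or 0 (fun j => j.elim0))) (by simp)
        have r4 := hQ (.or 0 (fun j => j.elim0)) (by simp)
        apply A_of_sg r1
        rw [hsg] at r2 ⊢
        rw [respAt_or r2]
        refine ⟨0, ?_⟩
        have e1 : (![sg X β (.var (.inr (.inr j))), sg X β (.neg (X.D j))] :
          Fin 2 → Fm p (Var q N)) 0 = .neg (.or 0 (fun j => j.elim0)) := by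
          have : (![sg X β (.var (.inr (.inr j))), sg X β (.neg (X.D j))] :
            Fin 2 → Fm p (Var q N)) 0 = cst (β j) := rfl
          rw [this, hb]
          rfl
        rw [e1, respAt_neg r3, V_empty r4]
        rfl
    | false =>
      have hKn : Kn X β j = sg X β (X.D j) := by
        unfold Kn
        rw [dif_pos j.2]
        have : (⟨(j : ℕ), j.2⟩ : Fin k) = j := rfl
        rw [this, hb]
        simp
      have hm1 := allF_closed.or _ _ hmS 1
      have hm1' : (.neg (sg X β (X.D j)) : Fm p (Var q N)) ∈ allF X 𝒰 := hm1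
      refine Der.inf ∅ {A, sg X β (.or 2 ![.var (.inr (.inr j)), .neg (X.D j)]),
        .neg (sg X β (X.D j)), CC X β k} hmA (by simp)
        (card_le_four.trans (by omega)) ?_ (by simp) ?_
      · intro x hx
        simp only [mem_insert, mem_singleton] at hx
        rcases hx with rfl | rfl | rfl | rfl
        · exact hmA
        · exact mem_sg hmem
        · exact hm1'
        · exact mem_C le_rfl
      · intro V _ hQ _
        have r1 := hQ A (by simp)
        have r2 := hQ (sg X β (.or 2 ![.var (.inr (.inr j)), .neg (X.D j)])) (by simp)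
        have r3 := hQ (.neg (sg X β (X.D j))) (by simp)
        have r4 := hQ (CC X β k) (by simp)
        cases hV : V (sg X β (X.D j)) with
        | true => exact A_of_C r1 (C_of_Kn j.2 r4 (by rw [hKn]; exact hV))
        | false =>
          apply A_of_sg r1
          rw [hsg] at r2 ⊢
          rw [respAt_or r2]
          refine ⟨1, ?_⟩
          have e1 : (![sg X β (.var (.inr (.inr j))), sg X β (.neg (X.D j))] :
            Fin 2 → Fm p (Var q N)) 1 = .neg (sg X β (X.D j)) := rfl
          rw [e1, respAt_neg r3, hV]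
          rfl
  | def₂ j hmem =>
    intro β
    have hsg := sg_or_two (X := X) β (.neg (.var (.inr (.inr j)))) (X.D j)
    have hmA := mem_A (X := X) (β := β) hmem
    have hmS := mem_sg (X := X) (β := β) hmem
    rw [hsg] at hmS
    set A := AA' X β (.or 2 ![.neg (.var (.inr (.inr j))), X.D j]) with hA
    cases hb : β j with
    | true =>
      have hKn : Kn X β j = .neg (sg X β (X.D j)) := by
        unfold Kn
        rw [dif_pos j.2]
        have : (⟨(j : ℕ), j.2⟩ : Fin k) = j := rfl
        rw [this, hb]
        simp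
      have hm1' : (.neg (sg X β (X.D j)) : Fm p (Var q N)) ∈ allF X 𝒰 := by
        rw [← hKn]
        exact mem_Kn j.2
      refine Der.inf ∅ {A, sg X β (.or 2 ![.neg (.var (.inr (.inr j))), X.D j]),
        .neg (sg X β (X.D j)), CC X β k} hmA (by simp)
        (card_le_four.trans (by omega)) ?_ (by simp) ?_
      · intro x hx
        simp only [mem_insert, mem_singleton] at hx
        rcases hx with rfl | rfl | rfl | rfl
        · exact hmA
        · exact mem_sg hmem
        · exact hm1'
        · exact mem_C le_rfl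
      · intro V _ hQ _
        have r1 := hQ A (by simp)
        have r2 := hQ (sg X β (.or 2 ![.neg (.var (.inr (.inr j))), X.D j])) (by simp)
        have r3 := hQ (.neg (sg X β (X.D j))) (by simp)
        have r4 := hQ (CC X β k) (by simp)
        cases hV : V (sg X β (X.D j)) with
        | false =>
          refine A_of_C r1 (C_of_Kn j.2 r4 ?_)
          rw [hKn, respAt_neg r3, hV]
          rfl
        | true =>
          apply A_of_sg r1
          rw [hsg] at r2 ⊢
          rw [respAt_or r2]
          exact ⟨1, hV⟩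
    | false =>
      have hm1 := allF_closed.or _ _ hmS 0
      have e0 : (![sg X β (.neg (.var (.inr (.inr j)))), sg X β (X.D j)] :
          Fin 2 → Fm p (Var q N)) 0 = .neg (.or 0 (fun j => j.elim0)) := by
        have : (![sg X β (.neg (.var (.inr (.inr j)))), sg X β (X.D j)] :
          Fin 2 → Fm p (Var q N)) 0 = .neg (cst (β j)) := rfl
        rw [this, hb]
        rfl
      rw [e0] at hm1
      have hm2 := allF_closed.neg _ hm1
      refine Der.inf ∅ {A, sg X β (.or 2 ![.neg (.var (.inr (.inr j))), X.D j]),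
        .neg (.or 0 (fun j => j.elim0)), .or 0 (fun j => j.elim0)} hmA (by simp)
        (card_le_four.trans (by omega)) ?_ (by simp) ?_
      · intro x hx
        simp only [mem_insert, mem_singleton] at hx
        rcases hx with rfl | rfl | rfl | rfl
        · exact hmA
        · exact mem_sg hmem
        · exact hm1
        · exact hm2
      · intro V _ hQ _
        have r1 := hQ A (by simp)
        have r2 := hQ (sg X β (.or 2 ![.neg (.var (.inr (.inr j))), X.D j])) (by simp)
        have r3 := hQ (.neg (.or 0 (fun j => j.elim0))) (by simp)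
        have r4 := hQ (.or 0 (fun j => j.elim0)) (by simp)
        apply A_of_sg r1
        rw [hsg] at r2 ⊢
        rw [respAt_or r2]
        refine ⟨0, ?_⟩
        rw [e0, respAt_neg r3, V_empty r4]
        rfl
  | @inf φ P Q hmem hP hQ hQU hder hinf ih =>
    intro β
    refine Der.inf (P.image (AA' X β))
      (Q.image (sg X β) ∪ insert (AA' X β φ) (P.image (AA' X β))) (mem_A hmem)
      (card_image_le.trans (by omega)) ?_ ?_ ?_ ?_
    · have h1 := card_union_le (Q.image (sg X β)) (insert (AA' X β φ) (P.image (AA' X β)))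
      have h2 := card_insert_le (AA' X β φ) (P.image (AA' X β))
      have h3 := card_image_le (s := P) (f := AA' X β)
      have h4 := card_image_le (s := Q) (f := sg X β)
      omega
    · intro x hx
      rw [mem_union, mem_insert] at hx
      rcases hx with hx | rfl | hx
      · obtain ⟨χ, hχ, rfl⟩ := mem_image.1 hx
        exact mem_sg (hQU hχ)
      · exact mem_A hmem
      · obtain ⟨χ, hχ, rfl⟩ := mem_image.1 hx
        exact (ih χ hχ β).mem
    · intro x hx
      obtain ⟨χ, hχ, rfl⟩ := mem_image.1 hx
      exact ih χ hχ β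
    · intro V hV hVQ hVP
      have r1 := hVQ (AA' X β φ) (by rw [mem_union]; exact Or.inr (mem_insert_self _ _))
      cases hC : V (CC X β k) with
      | true => exact A_of_C r1 hC
      | false =>
        apply A_of_sg r1
        apply hinf (fun χ => V (sg X β χ)) (respMod_bind hV)
        · intro χ hχ
          apply respAt_bind
          exact hVQ _ (by rw [mem_union]; exact Or.inl (mem_image_of_mem _ hχ))
        · intro χ hχ
          have r2 := hVQ (AA' X β χ) (by
            rw [mem_union]
            exact Or.inr (mem_insert_of_mem (mem_image_of_mem _ hχ)))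
          have r3 := hVP _ (mem_image_of_mem _ hχ)
          rcases of_A r2 r3 with h | h
          · rw [hC] at h
            exact absurd h (by simp)
          · exact h

/-- the contradiction -/
theorem der_CC {c : ℕ} {f₀ : Fin 0 → Fm p (XVar q N E k)} (h : EDer c X 𝒰 (.or 0 f₀)) :
    ∀ d ≤ k, ∀ β : Fin k → Bool,
      Der (2 * c + 4) s (allF X 𝒰) (CC X β (k - d)) := by
  classical
  intro d
  induction d with
  | zero =>
    intro _ β
    have h1 := translate h β
    have hm : sg X β (.or 0 f₀) ∈ allF X 𝒰 := by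
      have := allF_closed.or _ _ h1.mem 1
      exact this
    refine Der.inf {AA' X β (.or 0 f₀)} {AA' X β (.or 0 f₀), sg X β (.or 0 f₀)}
      (mem_C (by omega)) (by rw [card_singleton]; omega) (card_le_two.trans (by omega)) ?_ ?_ ?_
    · intro x hx
      rw [mem_insert, mem_singleton] at hx
      rcases hx with rfl | rfl
      · exact h1.mem
      · exact hm
    · intro x hx
      rw [mem_singleton] at hx
      subst hx
      exact h1
    · intro V _ hQ hP
      have r1 := hQ (AA' X β (.or 0 f₀)) (by simp)
      have r2 := hQ (sg X β (.or 0 f₀)) (by simp)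
      rcases of_A r1 (hP _ (mem_singleton_self _)) with h3 | h3
      · exact h3
      · exact absurd ((V_empty r2).symm.trans h3) (by simp)
  | succ d ih =>
    intro hd β
    set m := k - (d + 1) with hm
    have hmk : m < k := by omega
    have hkd : k - d = m + 1 := by omega
    set β₁ := Function.update β ⟨m, hmk⟩ true with hβ₁
    set β₀ := Function.update β ⟨m, hmk⟩ false with hβ₀
    have i1 := ih (by omega) β₁
    have i0 := ih (by omega) β₀
    rw [hkd] at i1 i0
    -- the early entries agree
    have hne : ∀ b : Bool, ∀ i : Fin k, (i : ℕ) < m → Function.update β ⟨m, hmk⟩ b i = β i := by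
      intro b i hi
      refine Function.update_of_ne (fun h => ?_) _ _
      rw [h] at hi
      exact lt_irrefl _ hi
    have hD : ∀ b : Bool, ∀ i : Fin k, (i : ℕ) ≤ m →
        sg X (Function.update β ⟨m, hmk⟩ b) (X.D i) = sg X β (X.D i) := by
      intro b i hi
      apply sg_D_congr
      intro i' hi'
      exact hne b i' (lt_of_lt_of_le (Fin.lt_def.1 hi') hi)
    have hKn : ∀ b : Bool, ∀ i < m, Kn X (Function.update β ⟨m, hmk⟩ b) i = Kn X β i := by
      intro b i hi
      unfold Kn
      rw [dif_pos (by omega), dif_pos (by omega), hD b ⟨i, by omega⟩ hi.le, hne b ⟨i, by omega⟩ hi]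
    have hK1 : Kn X β₁ m = .neg (sg X β (X.D ⟨m, hmk⟩)) := by
      unfold Kn
      rw [dif_pos hmk, hβ₁, hD true ⟨m, hmk⟩ le_rfl, Function.update_self]
      simp
    have hK0 : Kn X β₀ m = sg X β (X.D ⟨m, hmk⟩) := by
      unfold Kn
      rw [dif_pos hmk, hβ₀, hD false ⟨m, hmk⟩ le_rfl, Function.update_self]
      simp
    have hmN : .neg (sg X β (X.D ⟨m, hmk⟩)) ∈ allF X 𝒰 := by
      rw [← hK1]
      exact mem_Kn hmk
    refine Der.inf {CC X β₁ (m + 1), CC X β₀ (m + 1)}
      {CC X β₁ (m + 1), CC X β₀ (m + 1), CC X β m, .neg (sg X β (X.D ⟨m, hmk⟩))}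
      (mem_C (by omega)) (card_le_two.trans (by omega)) (card_le_four.trans (by omega)) ?_ ?_ ?_
    · intro x hx
      simp only [mem_insert, mem_singleton] at hx
      rcases hx with rfl | rfl | rfl | rfl
      · exact i1.mem
      · exact i0.mem
      · exact mem_C (by omega)
      · exact hmN
    · intro x hx
      rw [mem_insert, mem_singleton] at hx
      rcases hx with rfl | rfl
      · exact i1
      · exact i0
    · intro V _ hQ hP
      have r1 := hQ (CC X β₁ (m + 1)) (by simp)
      have r2 := hQ (CC X β₀ (m + 1)) (by simp)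
      have r3 := hQ (CC X β m) (by simp)
      have r4 := hQ (.neg (sg X β (X.D ⟨m, hmk⟩))) (by simp)
      obtain ⟨a, ha, ha'⟩ := of_C r1 (hP _ (by simp))
      obtain ⟨b, hb, hb'⟩ := of_C r2 (hP _ (by simp))
      by_cases h1 : a < m
      · rw [hβ₁, hKn true a h1] at ha'
        exact C_of_Kn h1 r3 ha'
      · by_cases h2 : b < m
        · rw [hβ₀, hKn false b h2] at hb'
          exact C_of_Kn h2 r3 hb'
        · exfalso
          have e1 : a = m := by omega
          have e2 : b = m := by omega
          rw [e1, hK1, respAt_neg r4] at ha'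
          rw [e2, hK0] at hb'
          rw [hb'] at ha'
          simp at ha'

theorem der_false {c : ℕ} {f₀ : Fin 0 → Fm p (XVar q N E k)} (h : EDer c X 𝒰 (.or 0 f₀)) :
    ∃ f, Der (2 * c + 4) s (allF X 𝒰) (.or 0 f) := by
  have h1 := der_CC h k le_rfl (fun _ => false)
  rw [Nat.sub_self] at h1
  exact ⟨_, h1⟩

end Pool.Agent.J6H27.EF
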